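import Mathlib

set_option autoImplicit false

/-!
Embeddings of countable fields in algebraically closed fields of infinite transcendence degree.
-/

namespace Pool.Agent.Y58.TFS

open MvPolynomial

universe u v w

/-- A countable extension field of `F` embeds in every algebraically closed extension of `F`
containing infinitely many elements algebraically independent over `F`. -/
theorem embed {F : Type u} [Field F] {E : Type v} [Field E] [Algebra F E] [Countable E]
    {Ω : Type w} [Field Ω] [IsAlgClosed Ω] [Algebra F Ω] {x : ℕ → Ω}
    (hx : AlgebraicIndependent F x) : Nonempty (E →+* Ω) := by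
  obtain ⟨s, hs⟩ := exists_isTranscendenceBasis F E
  obtain ⟨f, hf⟩ := exists_injective_nat s
  have hy : AlgebraicIndependent F (x ∘ f) := hx.comp f hf
  let R := Algebra.adjoin F (Set.range ((↑) : s → E))
  let φ : R →+* Ω := ((aeval (x ∘ f) : MvPolynomial s F →ₐ[F] Ω).comp
    hs.1.aevalEquiv.symm.toAlgHom).toRingHom
  have hφ : Function.Injective φ := by
    intro a b hab
    have h1 : hs.1.aevalEquiv.symm a = hs.1.aevalEquiv.symm b := hy hab
    exact hs.1.aevalEquiv.symm.injective h1
  letI : Algebra R Ω := φ.toAlgebra
  have : FaithfulSMul R Ω := (faithfulSMul_iff_algebraMap_injective R Ω).2 hφ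
  have : Algebra.IsAlgebraic R E := hs.isAlgebraic
  exact ⟨(IsAlgClosed.lift : E →ₐ[R] Ω).toRingHom⟩

end Pool.Agent.Y58.TFS
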