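import Pool.Agent.Y58.TFS.Grp
import Pool.Agent.Y58.TFS.Emb

set_option autoImplicit false
set_option linter.unusedSectionVars false

/-!
A simple torsion-free subgroup of `GL₃(Ω)`.
-/

namespace Pool.Agent.Y58.TFS

open QuaternionAlgebra

variable {Ω : Type*} [Field Ω] [IsAlgClosed Ω] [Uncountable Ω] [NeZero (2 : Ω)]

variable {α β : Ω} {K : Subfield Ω}

lemma re_conj (x v : Q α β) (hv : v.re = 0) : (x * v * star x).re = 0 := by
  simp [hv]
  ring

lemma ad_apply (x : Q α β) : ad x = C3 x := rfl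

lemma ad_one_conj {x : Q α β} (h : ad x = 1) :
    x * ⟨0, 1, 0, 0⟩ * star x = ⟨0, 1, 0, 0⟩ ∧ x * ⟨0, 0, 1, 0⟩ * star x = ⟨0, 0, 1, 0⟩ := by
  rw [ad_apply] at h
  constructor
  · have e1 := congrFun (congrFun h 0) 0
    have e2 := congrFun (congrFun h 1) 0
    have e3 := congrFun (congrFun h 2) 0
    simp only [C3, Matrix.of_apply, Matrix.cons_val', Matrix.cons_val_zero, Matrix.cons_val_one,
      Matrix.cons_val, Matrix.one_apply_eq] at e1 e2 e3
    have f2 : ((1 : Matrix (Fin 3) (Fin 3) Ω) 1 0) = 0 := by simp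
    have f3 : ((1 : Matrix (Fin 3) (Fin 3) Ω) 2 0) = 0 := by simp
    rw [f2] at e2
    rw [f3] at e3
    ext
    · exact re_conj _ _ rfl
    · exact e1
    · exact e2
    · exact e3
  · have e1 := congrFun (congrFun h 0) 1
    have e2 := congrFun (congrFun h 1) 1
    have e3 := congrFun (congrFun h 2) 1
    simp only [C3, Matrix.of_apply, Matrix.cons_val', Matrix.cons_val_zero, Matrix.cons_val_one,
      Matrix.cons_val, Matrix.one_apply_eq] at e1 e2 e3
    have f1 : ((1 : Matrix (Fin 3) (Fin 3) Ω) 0 1) = 0 := by simp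
    have f3 : ((1 : Matrix (Fin 3) (Fin 3) Ω) 2 1) = 0 := by simp
    rw [f1] at e1
    rw [f3] at e3
    ext
    · exact re_conj _ _ rfl
    · exact e1
    · exact e2
    · exact e3

lemma im_of_ad {x : Q α β} (hα0 : α ≠ 0) (hβ0 : β ≠ 0) (hx : nr x = 1) (h : ad x = 1) :
    x.im = 0 := by
  obtain ⟨h1, h2⟩ := ad_one_conj h
  have hs : star x * x = 1 := by
    rw [star_mul_nr, hx]
    rfl
  have c1 : x * ⟨0, 1, 0, 0⟩ = ⟨0, 1, 0, 0⟩ * x := by
    calc x * (⟨0, 1, 0, 0⟩ : Q α β) = x * ⟨0, 1, 0, 0⟩ * (star x * x) := by rw [hs, mul_one]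
      _ = (x * ⟨0, 1, 0, 0⟩ * star x) * x := by simp only [mul_assoc]
      _ = _ := by rw [h1]
  have c2 : x * ⟨0, 0, 1, 0⟩ = ⟨0, 0, 1, 0⟩ * x := by
    calc x * (⟨0, 0, 1, 0⟩ : Q α β) = x * ⟨0, 0, 1, 0⟩ * (star x * x) := by rw [hs, mul_one]
      _ = (x * ⟨0, 0, 1, 0⟩ * star x) * x := by simp only [mul_assoc]
      _ = _ := by rw [h2]
  have e1 := congrArg QuaternionAlgebra.imK c1
  have e2 := congrArg QuaternionAlgebra.imJ c1
  have e3 := congrArg QuaternionAlgebra.imK c2
  simp only [imK_mul, imJ_mul] at e1 e2 e3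
  have f1 : x.imJ = 0 := two_inj (by linear_combination -e1)
  have f2 : x.imK = 0 := by
    have : α * x.imK = 0 := two_inj (by linear_combination -e2)
    exact (mul_eq_zero.1 this).resolve_left hα0
  have f3 : x.imI = 0 := two_inj (by linear_combination e3)
  ext
  · simp
  · simpa using f3
  · simpa using f1
  · simpa using f2

lemma sq_one_of_im {x : Q α β} (hx : nr x = 1) (h : x.im = 0) : x * x = 1 := by
  have e1 := eq_coe_of_im h
  have e2 : x.re ^ 2 = 1 := by
    rw [e1, nr_coe] at hx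
    exact hx
  rw [e1]
  ext
  · simp
    linear_combination e2
  · simp
  · simp
  · simp

lemma ad_of_im {x : Q α β} (hx : nr x = 1) (h : x.im = 0) : ad x = 1 := by
  have e1 := eq_coe_of_im h
  have e2 : x.re * x.re = 1 := by
    rw [e1, nr_coe] at hx
    linear_combination hx
  rw [e1, ad_apply]
  ext i j
  fin_cases i <;> fin_cases j <;> simp [C3, e2]

lemma ad_neg_one : ad (-1 : Q α β) = 1 := by
  apply ad_of_im
  · rw [nr_neg, nr_one]
  · ext <;> simp

/-- Countable torsion-free groups, uniformly simple with constant four: every element is a product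
of four conjugates of any given non-identity element and of its inverse. -/
structure Fine (G : Type*) [Group G] : Prop where
  ct : Countable G
  nt : Nontrivial G
  tf : ∀ g : G, g ≠ 1 → ¬ IsOfFinOrder g
  four : ∀ a b : G, a ≠ 1 → ∃ c : Fin 4 → G, (∀ i, IsConj a (c i) ∨ IsConj a⁻¹ (c i)) ∧
    b = c 0 * c 1 * c 2 * c 3

lemma Fine.of_equiv {G H : Type*} [Group G] [Group H] (e : G ≃* H) (h : Fine G) : Fine H := by
  have hct := h.ct
  have hnt := h.nt
  refine ⟨e.symm.injective.countable, e.symm.toEquiv.nontrivial, ?_, ?_⟩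
  · intro g hg hfin
    refine h.tf (e.symm g) ?_ (MonoidHom.isOfFinOrder e.symm.toMonoidHom hfin)
    intro h1
    apply hg
    rw [← e.apply_symm_apply g, h1, map_one]
  · intro a b ha
    obtain ⟨c, hc, hb⟩ := h.four (e.symm a) (e.symm b) (by
      intro h1
      apply ha
      rw [← e.apply_symm_apply a, h1, map_one])
    refine ⟨fun i => e (c i), ?_, ?_⟩
    · intro i
      rcases hc i with h1 | h1
      · left
        have := e.toMonoidHom.map_isConj h1
        simpa using this
      · right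
        have := e.toMonoidHom.map_isConj h1
        simpa using this
    · rw [← e.apply_symm_apply b, hb, map_mul, map_mul, map_mul]

lemma Fine.simple {G : Type*} [Group G] (h : Fine G) : IsSimpleGroup G := by
  have hnt := h.nt
  refine { toNontrivial := hnt, eq_bot_or_eq_top_of_normal := ?_ }
  intro H hH
  by_cases hex : ∃ a ∈ H, a ≠ 1
  · right
    obtain ⟨a, ha, ha1⟩ := hex
    rw [eq_top_iff]
    intro b _
    obtain ⟨c, hc, hb⟩ := h.four a b ha1
    have hcH : ∀ i, c i ∈ H := by
      intro i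
      rcases hc i with h1 | h1
      · obtain ⟨g, hg⟩ := isConj_iff.1 h1
        rw [← hg]
        exact hH.conj_mem a ha g
      · obtain ⟨g, hg⟩ := isConj_iff.1 h1
        rw [← hg]
        exact hH.conj_mem _ (H.inv_mem ha) g
    rw [hb]
    exact H.mul_mem (H.mul_mem (H.mul_mem (hcH 0) (hcH 1)) (hcH 2)) (hcH 3)
  · left
    push Not at hex
    rw [eq_bot_iff]
    intro g hg
    exact Subgroup.mem_bot.2 (hex g hg)

/-- There is such a subgroup of `GL₃(Ω)`, with all entries in a countable subfield. -/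
theorem exists_fine : ∃ (G : Subgroup (Matrix.GeneralLinearGroup (Fin 3) Ω)) (K : Subfield Ω),
    Countable K ∧ (∀ g ∈ G, ∀ i j, (g : Matrix (Fin 3) (Fin 3) Ω) i j ∈ K) ∧ Fine G := by
  obtain ⟨α, β, K, hcK, hα, hβ, hI, hroot, han, h1, h2⟩ := main_field (Ω := Ω)
  have hα0 := α_ne han hα
  have hβ0 := β_ne han hα
  let Φ : (Q α β)ˣ →* Matrix.GeneralLinearGroup (Fin 3) Ω := Units.map (ad (α := α) (β := β))
  have hΦ1 : ∀ u ∈ G1 K hα hβ, Φ u = 1 → (u : Q α β).im = 0 := by
    intro u hu h
    exact im_of_ad hα0 hβ0 hu.2 (congrArg Units.val h)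
  have hΦ2 : ∀ u ∈ G1 K hα hβ, (u : Q α β).im = 0 → Φ u = 1 := by
    intro u hu h
    apply Units.ext
    exact ad_of_im hu.2 h
  have hent : ∀ g ∈ (G1 K hα hβ).map Φ, ∀ i j, (g : Matrix (Fin 3) (Fin 3) Ω) i j ∈ K := by
    rintro g ⟨u, hu, rfl⟩ i j
    have hcol : ∀ e : Q α β, inD K e → inD K ((u : Q α β) * e * star (u : Q α β)) := fun e he =>
      inD_mul hα hβ (inD_mul hα hβ hu.1 he) (inD_star hu.1)
    have c1 := hcol ⟨0, 1, 0, 0⟩ ⟨K.zero_mem, K.one_mem, K.zero_mem, K.zero_mem⟩
    have c2 := hcol ⟨0, 0, 1, 0⟩ ⟨K.zero_mem, K.zero_mem, K.one_mem, K.zero_mem⟩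
    have c3 := hcol ⟨0, 0, 0, 1⟩ ⟨K.zero_mem, K.zero_mem, K.zero_mem, K.one_mem⟩
    change C3 (u : Q α β) i j ∈ K
    obtain ⟨-, c11, c12, c13⟩ := c1
    obtain ⟨-, c21, c22, c23⟩ := c2
    obtain ⟨-, c31, c32, c33⟩ := c3
    fin_cases i <;> fin_cases j
    · exact c11
    · exact c21
    · exact c31
    · exact c12
    · exact c22
    · exact c32
    · exact c13
    · exact c23
    · exact c33
  refine ⟨(G1 K hα hβ).map Φ, K, hcK, hent, ?_, ?_, ?_, ?_⟩
  · let f : (G1 K hα hβ).map Φ → (Fin 3 → Fin 3 → K) := fun g i j => ⟨_, hent g.1 g.2 i j⟩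
    have hf : Function.Injective f := by
      intro g h hgh
      apply Subtype.ext
      apply Units.ext
      ext i j
      exact congrArg Subtype.val (congrFun (congrFun hgh i) j)
    exact hf.countable
  · have hx0 : (⟨1, 1, 0, 0⟩ : Q α β) ≠ 0 := by
      intro h
      simpa using congrArg QuaternionAlgebra.re h
    have hxD : inD K (⟨1, 1, 0, 0⟩ : Q α β) := ⟨K.one_mem, K.one_mem, K.zero_mem, K.zero_mem⟩
    have hn := nr_ne han hxD hx0
    have hn' : (1 : Ω) - α ≠ 0 := by
      intro h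
      apply hn
      simp [nr, h]
    set y : Q α β := ⟨(1 + α) / (1 - α), 2 / (1 - α), 0, 0⟩ with hy
    have h2K : (2 : Ω) ∈ K := by
      rw [show (2 : Ω) = 1 + 1 by norm_num]
      exact K.add_mem K.one_mem K.one_mem
    have hyD : inD K y := ⟨K.div_mem (K.add_mem K.one_mem hα) (K.sub_mem K.one_mem hα),
      K.div_mem h2K (K.sub_mem K.one_mem hα), K.zero_mem, K.zero_mem⟩
    have hy1 : nr y = 1 := by
      simp only [nr, hy]
      field_simp
      ring
    have hyne : nr y ≠ 0 := by rw [hy1]; exact one_ne_zero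
    have hyG : mkU y hyne ∈ G1 K hα hβ := ⟨hyD, hy1⟩
    refine ⟨⟨⟨Φ (mkU y hyne), Subgroup.mem_map_of_mem _ hyG⟩, 1, ?_⟩⟩
    intro h
    have h3 := hΦ1 _ hyG (congrArg Subtype.val h)
    have h4 := congrArg QuaternionAlgebra.imI h3
    simp only [mkU_val, imI_im, hy, imI_zero, div_eq_zero_iff] at h4
    rcases h4 with h4 | h4
    · exact two_ne_zero h4
    · exact hn' h4
  · rintro ⟨g, hg⟩ hne hfin
    obtain ⟨u, hu, rfl⟩ := hg
    obtain ⟨n, hn, hgn⟩ := isOfFinOrder_iff_pow_eq_one.1 hfin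
    apply hne
    apply Subtype.ext
    have h3 : Φ u ^ n = 1 := congrArg Subtype.val hgn
    have hun : u ^ n ∈ G1 K hα hβ := (G1 K hα hβ).pow_mem hu n
    rw [← map_pow] at h3
    have h4 := hΦ1 _ hun h3
    have h5 := sq_one_of_im hun.2 h4
    have h6 : ((u : (Q α β)ˣ) : Q α β) ^ (2 * n) = 1 := by
      rw [mul_comm, pow_mul, pow_two, ← Units.val_pow_eq_pow_val]
      exact h5
    exact hΦ2 u hu (torsion_free hα hβ hroot han hu.1 hu.2 (by omega) h6)
  · rintro ⟨a, ha⟩ ⟨b, hb⟩ hne
    obtain ⟨u, hu, rfl⟩ := ha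
    obtain ⟨v, hv, rfl⟩ := hb
    have hui : (u : Q α β).im ≠ 0 := by
      intro h
      exact hne (Subtype.ext (hΦ2 u hu h))
    obtain ⟨c, hc, hvc⟩ := four_conj hI han h1 h2 hu hui hv
    have hcG : ∀ i, c i ∈ G1 K hα hβ := fun i => Cs_G1 hu _ (hc i)
    refine ⟨fun i => ⟨Φ (c i), Subgroup.mem_map_of_mem _ (hcG i)⟩, ?_, ?_⟩
    · intro i
      obtain ⟨g, hg, h | h⟩ := hc i
      · left
        refine isConj_iff.2 ⟨⟨Φ g, Subgroup.mem_map_of_mem _ hg⟩, ?_⟩
        apply Subtype.ext
        change Φ g * Φ u * (Φ g)⁻¹ = Φ (c i)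
        rw [h, map_mul, map_mul, map_inv]
      · right
        refine isConj_iff.2 ⟨⟨Φ g, Subgroup.mem_map_of_mem _ hg⟩, ?_⟩
        apply Subtype.ext
        change Φ g * (Φ u)⁻¹ * (Φ g)⁻¹ = Φ (c i)
        rw [h, map_mul, map_mul, map_inv, map_inv]
    · apply Subtype.ext
      change Φ v = Φ (c 0) * Φ (c 1) * Φ (c 2) * Φ (c 3)
      rw [← map_mul, ← map_mul, ← map_mul]
      rcases hvc with h | h
      · rw [← h]
      · rw [← h]
        have hneg : Φ (-1) = 1 := by
          apply Units.ext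
          change ad ((-1 : (Q α β)ˣ) : Q α β) = 1
          rw [Units.val_neg, Units.val_one]
          exact ad_neg_one
        rw [← neg_one_mul v, map_mul, hneg, one_mul]

lemma glmap_inj {R S : Type*} [Field R] [Field S] (f : R →+* S) :
    Function.Injective (Matrix.GeneralLinearGroup.map (n := Fin 3) f) := by
  intro g h hgh
  apply Units.ext
  ext i j
  have h1 := congrArg (fun u : Matrix.GeneralLinearGroup (Fin 3) S =>
    (u : Matrix (Fin 3) (Fin 3) S) i j) hgh
  exact f.injective h1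

omit [IsAlgClosed Ω] [Uncountable Ω] [NeZero (2 : Ω)] in
/-- change of fields -/
theorem transport {K : Subfield Ω} {G : Subgroup (Matrix.GeneralLinearGroup (Fin 3) Ω)}
    (hent : ∀ g ∈ G, ∀ i j, (g : Matrix (Fin 3) (Fin 3) Ω) i j ∈ K) (hG : Fine G)
    {Ω' : Type*} [Field Ω'] (φ : K →+* Ω') :
    ∃ G' : Subgroup (Matrix.GeneralLinearGroup (Fin 3) Ω'), Fine G' := by
  set ψ : Matrix.GeneralLinearGroup (Fin 3) K →* Matrix.GeneralLinearGroup (Fin 3) Ω :=
    Matrix.GeneralLinearGroup.map K.subtype with hψ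
  have hle : G ≤ ψ.range := by
    intro g hg
    let A : Matrix (Fin 3) (Fin 3) K := fun i j => ⟨_, hent g hg i j⟩
    let B : Matrix (Fin 3) (Fin 3) K := fun i j => ⟨_, hent g⁻¹ (G.inv_mem hg) i j⟩
    have hA : K.subtype.mapMatrix A = (g : Matrix (Fin 3) (Fin 3) Ω) := by
      ext i j
      rfl
    have hB : K.subtype.mapMatrix B = ((g⁻¹ : Matrix.GeneralLinearGroup (Fin 3) Ω) :
        Matrix (Fin 3) (Fin 3) Ω) := by
      ext i j
      rfl
    have hm : Function.Injective (K.subtype.mapMatrix (m := Fin 3)) := by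
      intro M N h
      ext i j
      exact congrFun (congrFun h i) j
    have hAB : A * B = 1 := by
      apply hm
      rw [map_mul, hA, hB, map_one, ← Units.val_mul, mul_inv_cancel, Units.val_one]
    have hBA : B * A = 1 := by
      apply hm
      rw [map_mul, hA, hB, map_one, ← Units.val_mul, inv_mul_cancel, Units.val_one]
    refine ⟨⟨A, B, hAB, hBA⟩, ?_⟩
    apply Units.ext
    exact hA
  have e1 : (G.comap ψ).map ψ = G := Subgroup.map_comap_eq_self hle
  have h1 : Fine (G.comap ψ) := by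
    have h2 : Fine ((G.comap ψ).map ψ) := by rw [e1]; exact hG
    exact h2.of_equiv ((G.comap ψ).equivMapOfInjective ψ (glmap_inj _)).symm
  exact ⟨(G.comap ψ).map (Matrix.GeneralLinearGroup.map φ),
    h1.of_equiv ((G.comap ψ).equivMapOfInjective _ (glmap_inj φ))⟩

/-- The main theorem -/
theorem exists_fine_of_indep {F : Type*} [Field F] [Countable F] {Ω' : Type*} [Field Ω']
    [IsAlgClosed Ω'] [Algebra F Ω'] (h2 : (2 : Ω') ≠ 0) {x : ℕ → Ω'}
    (hx : AlgebraicIndependent F x) :
    ∃ G' : Subgroup (Matrix.GeneralLinearGroup (Fin 3) Ω'), Fine G' := by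
  let L := AlgebraicClosure (FractionRing (MvPolynomial ℝ F))
  have hun : Uncountable L := by
    let f : ℝ → L := fun r => algebraMap (FractionRing (MvPolynomial ℝ F)) L
      (algebraMap (MvPolynomial ℝ F) (FractionRing (MvPolynomial ℝ F)) (MvPolynomial.X r))
    have hf : Function.Injective f := by
      intro r s h
      exact MvPolynomial.X_injective (IsFractionRing.injective _ _
        ((algebraMap (FractionRing (MvPolynomial ℝ F)) L).injective h))
    exact hf.uncountable
  have h2L : NeZero (2 : L) := by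
    refine ⟨?_⟩
    intro h
    apply h2
    have h3 : algebraMap F L 2 = algebraMap F L 0 := by
      rw [map_ofNat, map_zero]
      exact h
    have h4 := (algebraMap F L).injective h3
    have h5 : algebraMap F Ω' 2 = algebraMap F Ω' 0 := congrArg _ h4
    rwa [map_ofNat, map_zero] at h5
  obtain ⟨G, K, hcK, hent, hG⟩ := exists_fine (Ω := L)
  -- enlarge `K` so that it contains `F`
  set K' : IntermediateField F L := IntermediateField.adjoin F (K : Set L) with hK'
  have hKK' : K ≤ K'.toSubfield := by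
    intro y hy
    exact IntermediateField.subset_adjoin F (K : Set L) hy
  have hcK' : Countable K' := by
    have h3 : Set.Countable (Set.range (algebraMap F L) ∪ (K : Set L)) :=
      (Set.countable_range _).union (Set.countable_coe_iff.1 hcK)
    have h4 : Countable (Subfield.closure (Set.range (algebraMap F L) ∪ (K : Set L))) := by
      rw [← Cardinal.mk_le_aleph0_iff]
      refine (Subfield.cardinalMk_closure_le_max _).trans (max_le ?_ le_rfl)
      exact Cardinal.mk_le_aleph0_iff.2 h3.to_subtype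
    exact h4
  obtain ⟨φ⟩ := embed (E := K') hx
  exact transport (K := K'.toSubfield) (fun g hg i j => hKK' (hent g hg i j)) hG φ

/-- over a given countable field -/
theorem exists_over (F : Type) [Field F] [Countable F] (h2 : (2 : F) ≠ 0) :
    ∃ G' : Subgroup (Matrix.GeneralLinearGroup (Fin 3)
      (AlgebraicClosure (FractionRing (MvPolynomial ℕ F)))), Fine G' := by
  refine exists_fine_of_indep (F := F) (x := fun n : ℕ =>
    algebraMap (FractionRing (MvPolynomial ℕ F)) _
      (algebraMap (MvPolynomial ℕ F) (FractionRing (MvPolynomial ℕ F)) (MvPolynomial.X n))) ?_ ?_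
  · intro h
    apply h2
    have h3 : algebraMap F (AlgebraicClosure (FractionRing (MvPolynomial ℕ F))) 2 =
        algebraMap F _ 0 := by
      rw [map_ofNat, map_zero]
      exact h
    exact (algebraMap F _).injective h3
  · have h1 : AlgebraicIndependent F (MvPolynomial.X : ℕ → MvPolynomial ℕ F) :=
      MvPolynomial.algebraicIndependent_X ℕ F
    have h3 := h1.map' (f := IsScalarTower.toAlgHom F (MvPolynomial ℕ F)
      (FractionRing (MvPolynomial ℕ F))) (IsFractionRing.injective _ _)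
    exact h3.map' (f := IsScalarTower.toAlgHom F (FractionRing (MvPolynomial ℕ F))
      (AlgebraicClosure (FractionRing (MvPolynomial ℕ F))))
      (algebraMap (FractionRing (MvPolynomial ℕ F)) _).injective

/-- every characteristic other than two -/
theorem exists_char (p : ℕ) (hp : p = 0 ∨ p.Prime) (hp2 : p ≠ 2) :
    ∃ (Ω' : Type) (_ : Field Ω') (_ : CharP Ω' p)
      (G' : Subgroup (Matrix.GeneralLinearGroup (Fin 3) Ω')), Fine G' := by
  rcases hp with rfl | hp
  · obtain ⟨G, hG⟩ := exists_over ℚ two_ne_zero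
    refine ⟨_, inferInstance, ?_, G, hG⟩
    exact charP_of_injective_algebraMap (algebraMap ℚ _).injective 0
  · haveI : Fact p.Prime := ⟨hp⟩
    obtain ⟨G, hG⟩ := exists_over (ZMod p) (by
      intro h
      have h3 : ((2 : ℕ) : ZMod p) = 0 := by exact_mod_cast h
      have h4 := (ZMod.natCast_eq_zero_iff 2 p).1 h3
      exact hp2 ((Nat.prime_dvd_prime_iff_eq hp Nat.prime_two).1 h4))
    refine ⟨_, inferInstance, ?_, G, hG⟩
    exact charP_of_injective_algebraMap (algebraMap (ZMod p) _).injective p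

end Pool.Agent.Y58.TFS
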