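import Pool.Agent.Y58.TFS.Quat

set_option autoImplicit false
set_option linter.unusedSectionVars false

/-!
Countable extensions: transcendental elements, and the first extension step.
-/

namespace Pool.Agent.Y58.TFS

open Polynomial Pool.Agent.H918R3 QuaternionAlgebra Cardinal

variable {Ω : Type*} [Field Ω] [IsAlgClosed Ω] [Uncountable Ω] [NeZero (2 : Ω)]

variable {α β : Ω}

/-- the algebraic closure of `K` in `Ω` -/
noncomputable def Alg (K : Subfield Ω) : Subfield Ω := (algebraicClosure K Ω).toSubfield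

lemma mem_Alg {K : Subfield Ω} {x : Ω} : x ∈ Alg K ↔ IsAlgebraic K x :=
  mem_algebraicClosure_iff

lemma le_Alg (K : Subfield Ω) : K ≤ Alg K := fun x hx =>
  mem_Alg.2 (isAlgebraic_algebraMap (⟨x, hx⟩ : K))

lemma countable_Alg (K : Subfield Ω) (hK : Countable K) : Countable (Alg K) := by
  have h := Algebraic.countable K Ω
  have h2 : ((Alg K : Subfield Ω) : Set Ω) = {x : Ω | IsAlgebraic K x} := by
    ext x
    exact mem_Alg
  have : Set.Countable ((Alg K : Subfield Ω) : Set Ω) := by rw [h2]; exact h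
  exact this.to_subtype

lemma tr_mono {M L : Subfield Ω} (h : M ≤ L) {s : Ω} (hs : Transcendental L s) :
    Transcendental M s := by
  rintro ⟨p, hp, hps⟩
  refine hs ⟨p.map (Subfield.inclusion h), ?_, ?_⟩
  · rw [Ne, Polynomial.map_eq_zero]
    exact hp
  · rw [← hps, aeval_def, aeval_def, eval₂_map]
    rfl

lemma tr_of_notMem {K : Subfield Ω} {s : Ω} (hs : s ∉ Alg K) : Transcendental (Alg K) s := by
  have h1 : Transcendental K s := fun h => hs (mem_Alg.2 h)
  exact h1.algebraicClosure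

lemma exists_tr (K : Subfield Ω) (hK : Countable K) : ∃ s : Ω, Transcendental (Alg K) s := by
  have h1 := countable_Alg K hK
  have h2 : ∃ s : Ω, s ∉ Alg K := by
    by_contra hcon
    push Not at hcon
    have h3 : Set.Countable (Set.univ : Set Ω) := by
      have h4 : Set.Countable ((Alg K : Subfield Ω) : Set Ω) := Set.countable_coe_iff.1 h1
      refine h4.mono fun x _ => hcon x
    exact not_countable (α := Ω) (Set.countable_univ_iff.1 h3)
  obtain ⟨s, hs⟩ := h2
  exact ⟨s, tr_of_notMem hs⟩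

lemma countable_poly (K : Subfield Ω) (hK : Countable K) : Countable K[X] := by
  rw [← Cardinal.mk_le_aleph0_iff] at hK ⊢
  exact (Polynomial.cardinalMk_le_max).trans (max_le hK le_rfl)

lemma countable_adj (K : Subfield Ω) (hK : Countable K) (s : Ω) : Countable (adj K s) := by
  have h1 := countable_poly K hK
  have h2 : ((adj K s : Subfield Ω) : Set Ω) ⊆
      Set.range (fun pq : K[X] × K[X] => (aeval s pq.1 / aeval s pq.2 : Ω)) := by
    intro x hx
    obtain ⟨p, q, h⟩ := mem_adj.1 hx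
    exact ⟨(p, q), h.symm⟩
  exact ((Set.countable_range _).mono h2).to_subtype

lemma countable_quad (K : Subfield Ω) (hK : Countable K) (z : Ω) (hz : z ^ 2 ∈ K) :
    Countable (quad K z hz) := by
  have h2 : ((quad K z hz : Subfield Ω) : Set Ω) ⊆
      Set.range (fun pq : K × K => ((pq.1 : Ω) + (pq.2 : Ω) * z : Ω)) := by
    rintro x ⟨p, hp, q, hq, h⟩
    exact ⟨(⟨p, hp⟩, ⟨q, hq⟩), h.symm⟩
  exact ((Set.countable_range _).mono h2).to_subtype

lemma exists_sq (c : Ω) : ∃ z : Ω, z ^ 2 = c := by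
  obtain ⟨z, hz⟩ := IsAlgClosed.exists_pow_nat_eq c (n := 2) (by norm_num)
  exact ⟨z, hz⟩

/-- pure quaternions: `q ^ 2 = - nr q` -/
lemma sq_pure (q : Q α β) (hq : q.re = 0) : q * q = ((-nr q : Ω) : Q α β) := by
  ext <;> simp only [re_mul, imI_mul, imJ_mul, imK_mul,
    re_coe, imI_coe, imJ_coe, imK_coe, nr, hq] <;> ring

lemma coe_comm (c : Ω) (x : Q α β) : (c : Q α β) * x = x * c := by
  ext <;> simp only [re_mul, imI_mul, imJ_mul, imK_mul,
    re_coe, imI_coe, imJ_coe, imK_coe] <;> ring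

lemma coe_mul_eq (c : Ω) (x : Q α β) : (c : Q α β) * x = c • x := by
  ext <;> simp only [re_mul, imI_mul, imJ_mul, imK_mul, re_smul, imI_smul, imJ_smul, imK_smul,
    re_coe, imI_coe, imJ_coe, imK_coe, smul_eq_mul] <;> ring

/-- the first extension step -/
theorem ext1 {K : Subfield Ω} (hα : α ∈ K) (hβ : β ∈ K) (hI : iu ∈ K)
    (han : Aniso α β K) (hc : Countable K) {a : Q α β} (ha : inD K a) (hai : a.im ≠ 0) {ν : Ω}
    (hν : ν ∈ K) (hν0 : ν ≠ 0) :
    (∃ w : Q α β, inD K w ∧ nr w = ν ∧ w * a = star a * w) ∨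
    ∃ K' : Subfield Ω, K ≤ K' ∧ Countable K' ∧ Aniso α β K' ∧
      ∃ w : Q α β, inD K' w ∧ nr w = ν ∧ w * a = a * w := by
  obtain ⟨s, hs'⟩ := exists_tr K hc
  have hs : Transcendental K s := tr_mono (le_Alg K) hs'
  have haim : inD K a.im := ⟨K.zero_mem, ha.2.1, ha.2.2.1, ha.2.2.2⟩
  set δ : Ω := -nr a.im with hδ
  have hδK : δ ∈ K := K.neg_mem (nr_mem hα hβ haim)
  have hδ0 : δ ≠ 0 := neg_ne_zero.2 (nr_ne han haim hai)
  obtain ⟨z, hz⟩ := exists_sq (ν + δ * s ^ 2)
  set F := adj K s with hF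
  have hKF : K ≤ F := le_adj K s
  have hsF : s ∈ F := self_mem_adj K s
  have hanF : Aniso α β F := aniso_adjoin hα hβ han hs
  have hzF : z ^ 2 ∈ F := by
    rw [hz]
    exact F.add_mem (hKF hν) (F.mul_mem (hKF hδK) (F.pow_mem hsF 2))
  -- the element `z + s a`
  have hnr : nr ((z : Q α β) + s • a.im) = ν := by
    have h1 : nr ((z : Q α β) + s • a.im) = z ^ 2 - s ^ 2 * δ := by
      simp only [nr, hδ, re_add, imI_add, imJ_add, imK_add, re_coe, imI_coe, imJ_coe, imK_coe,
        re_smul, imI_smul, imJ_smul, imK_smul, smul_eq_mul, re_im, imI_im, imJ_im, imK_im]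
      ring
    rw [h1, hz]
    ring
  have hcomm : ((z : Q α β) + s • a.im) * a = a * ((z : Q α β) + s • a.im) := by
    ext <;> simp only [re_mul, imI_mul, imJ_mul, imK_mul, re_add, imI_add, imJ_add, imK_add,
      re_coe, imI_coe, imJ_coe, imK_coe, re_smul, imI_smul, imJ_smul, imK_smul, smul_eq_mul,
      re_im, imI_im, imJ_im, imK_im] <;> ring
  by_cases hzF' : z ∈ F
  · right
    exact ⟨F, hKF, countable_adj K hc s, hanF, _, inD_add (inD_coe hzF')
      (inD_smul hsF (inD_mono hKF haim)), hnr, hcomm⟩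
  by_cases hno : ∀ q : Q α β, inD F q → q.re = 0 → nr q ≠ -z ^ 2
  · right
    refine ⟨quad F z hzF, hKF.trans (le_quad F z hzF), countable_quad F (countable_adj K hc s) z
      hzF, aniso_quad (hKF hα) (hKF hβ) hanF hzF hzF' hno, _, inD_add
      (inD_coe (self_mem_quad F z hzF)) (inD_smul (le_quad F z hzF hsF)
        (inD_mono (hKF.trans (le_quad F z hzF)) haim)), hnr, hcomm⟩
  left
  push Not at hno
  obtain ⟨q, hq, hq0, hqn⟩ := hno
  -- Cassels-Pfister
  obtain ⟨u, w, h0, h2, h1⟩ := cp_adj hs ![(⟨α, hα⟩ : K), ⟨β, hβ⟩, -(⟨α, hα⟩ * ⟨β, hβ⟩)] (by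
    intro v hv
    rw [Fin.sum_univ_three] at hv
    have hv' := congrArg (fun x : K => (x : Ω)) hv
    simp at hv'
    have := han ⟨0, v 0, v 1, v 2⟩ ⟨K.zero_mem, (v 0).2, (v 1).2, (v 2).2⟩ (by
      simp only [nr]
      linear_combination -hv')
    have e1 : ((v 0 : K) : Ω) = 0 := congrArg QuaternionAlgebra.imI this
    have e2 : ((v 1 : K) : Ω) = 0 := congrArg QuaternionAlgebra.imJ this
    have e3 : ((v 2 : K) : Ω) = 0 := congrArg QuaternionAlgebra.imK this
    funext i
    fin_cases i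
    · exact Subtype.ext e1
    · exact Subtype.ext e2
    · exact Subtype.ext e3) ![q.imI, q.imJ, q.imK] (by
    intro i
    fin_cases i
    · exact hq.2.1
    · exact hq.2.2.1
    · exact hq.2.2.2) ⟨ν, hν⟩ ⟨δ, hδK⟩ (by
    rw [Fin.sum_univ_three]
    simp
    rw [hz] at hqn
    simp only [nr, hq0] at hqn
    linear_combination -hqn)
  rw [Fin.sum_univ_three] at h0 h1 h2
  have h0' := congrArg (fun x : K => (x : Ω)) h0
  have h1' := congrArg (fun x : K => (x : Ω)) h1
  have h2' := congrArg (fun x : K => (x : Ω)) h2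
  simp at h0' h1' h2'
  set q0 : Q α β := ⟨0, u 0, u 1, u 2⟩ with hq0d
  set q1 : Q α β := ⟨0, w 0, w 1, w 2⟩ with hq1d
  have hq0K : inD K q0 := ⟨K.zero_mem, (u 0).2, (u 1).2, (u 2).2⟩
  have hq1K : inD K q1 := ⟨K.zero_mem, (w 0).2, (w 1).2, (w 2).2⟩
  have n0 : nr q0 = -ν := by
    simp only [nr, hq0d]
    linear_combination -h0'
  have n1 : nr q1 = -δ := by
    simp only [nr, hq1d]
    linear_combination -h2'
  have hanti : q0 * q1 = -(q1 * q0) := by
    ext
    · simp only [re_neg, re_mul, hq0d, hq1d]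
      linear_combination 2 * h1'
    · simp only [imI_neg, imI_mul, hq0d, hq1d]
      ring
    · simp only [imJ_neg, imJ_mul, hq0d, hq1d]
      ring
    · simp only [imK_neg, imK_mul, hq0d, hq1d]
      ring
  have hq1im : q1.im ≠ 0 := by
    intro h
    apply hδ0
    have : q1 = 0 := by
      rw [← re_add_im q1, h]
      simp [hq1d]
    rw [this, nr_zero] at n1
    linear_combination n1
  obtain ⟨h, hh, hhne, hconj⟩ := skolem hα hβ han hq1K haim (by simp [hq1d])
    (by rw [n1, hδ]; ring) hq1im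
  have hnh : nr h ≠ 0 := nr_ne han hh hhne
  refine ⟨iu • (h * q0 * qinv h), inD_smul hI (inD_mul hα hβ (inD_mul hα hβ hh hq0K)
    (inD_qinv hα hβ hh)), ?_, ?_⟩
  · rw [nr_smul, nr_mul, nr_mul, nr_qinv hnh, n0, iu_sq]
    field_simp
  · have e1 : a = ((a.re : Ω) : Q α β) + a.im := (re_add_im a).symm
    have e2 : star a = ((a.re : Ω) : Q α β) - a.im := by
      ext <;> simp
    have e3 : qinv h * a.im = q1 * qinv h := by
      calc qinv h * a.im = qinv h * a.im * (h * qinv h) := by rw [mul_qinv hnh, mul_one]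
        _ = qinv h * (a.im * h) * qinv h := by noncomm_ring
        _ = qinv h * (h * q1) * qinv h := by rw [← hconj]
        _ = (qinv h * h) * q1 * qinv h := by noncomm_ring
        _ = q1 * qinv h := by rw [qinv_mul hnh, one_mul]
    have e4 : (h * q0 * qinv h) * a.im = -(a.im * (h * q0 * qinv h)) := by
      calc (h * q0 * qinv h) * a.im = h * q0 * (qinv h * a.im) := by noncomm_ring
        _ = h * (q0 * q1) * qinv h := by rw [e3]; noncomm_ring
        _ = -((h * q1) * q0 * qinv h) := by rw [hanti]; noncomm_ring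
        _ = -(a.im * (h * q0 * qinv h)) := by rw [hconj]; noncomm_ring
    rw [smul_mul_assoc, mul_smul_comm]
    congr 1
    rw [e2]
    conv_lhs => rw [e1]
    rw [mul_add, e4, sub_mul, coe_comm]
    abel

/-- the same with the two alternatives exchanged -/
theorem ext1' {K : Subfield Ω} (hα : α ∈ K) (hβ : β ∈ K) (hI : iu ∈ K)
    (han : Aniso α β K) (hc : Countable K) {a : Q α β} (ha : inD K a) (hai : a.im ≠ 0) {ν : Ω}
    (hν : ν ∈ K) (hν0 : ν ≠ 0) :
    (∃ w : Q α β, inD K w ∧ nr w = ν ∧ w * a = a * w) ∨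
    ∃ K' : Subfield Ω, K ≤ K' ∧ Countable K' ∧ Aniso α β K' ∧
      ∃ w : Q α β, inD K' w ∧ nr w = ν ∧ w * a = star a * w := by
  have haim : inD K a.im := ⟨K.zero_mem, ha.2.1, ha.2.2.1, ha.2.2.2⟩
  obtain ⟨j, hj, hj0, hja⟩ := exists_anticomm hα hβ han a.im haim rfl hai
  have e1 : a = ((a.re : Ω) : Q α β) + a.im := (re_add_im a).symm
  have e2 : star a = ((a.re : Ω) : Q α β) - a.im := by
    ext <;> simp
  have hja' : j * a = star a * j := by
    rw [e2]
    conv_lhs => rw [e1]
    rw [mul_add, hja, sub_mul, coe_comm]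
    abel
  have hjb' : j * star a = a * j := by
    rw [e2]
    conv_rhs => rw [e1]
    rw [mul_sub, hja, add_mul, coe_comm]
    abel
  have hnj : nr j ≠ 0 := nr_ne han hj hj0
  have hflip : ∀ w : Q α β, w * a = star a * w → w * star a = a * w := by
    intro w hw
    have e3 : star a = ((2 * a.re : Ω) : Q α β) - a := star_eq a
    rw [e3] at hw ⊢
    rw [mul_sub, hw, sub_mul, coe_comm]
    abel
  rcases ext1 hα hβ hI han hc ha hai (K.div_mem hν (nr_mem hα hβ hj))
    (div_ne_zero hν0 hnj) with ⟨w, hw, hwn, hwa⟩ | ⟨K', hKK', hcK', hanK', w, hw, hwn, hwa⟩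
  · left
    refine ⟨w * j, inD_mul hα hβ hw hj, ?_, ?_⟩
    · rw [nr_mul, hwn]
      field_simp
    · rw [mul_assoc, hja', ← mul_assoc, hflip w hwa, mul_assoc]
  · right
    refine ⟨K', hKK', hcK', hanK', w * j, inD_mul (hKK' hα) (hKK' hβ) hw (inD_mono hKK' hj), ?_, ?_⟩
    · rw [nr_mul, hwn]
      field_simp
    · have h5 : w * star a = star a * w := by
        have e3 : star a = ((2 * a.re : Ω) : Q α β) - a := star_eq a
        rw [e3, mul_sub, hwa, sub_mul, coe_comm]
      rw [mul_assoc, hja', ← mul_assoc, h5, mul_assoc]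

end Pool.Agent.Y58.TFS
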