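import Pool.Agent.Y58.TFS.Ext

set_option autoImplicit false
set_option linter.unusedSectionVars false

/-!
The second extension step.
-/

namespace Pool.Agent.Y58.TFS

open Polynomial Pool.Agent.H918R3 QuaternionAlgebra Cardinal

variable {Ω : Type*} [Field Ω] [IsAlgClosed Ω] [Uncountable Ω] [NeZero (2 : Ω)]

variable {α β : Ω}

/-- `f (s)` is not a square in `M(s)` if `f` has a simple root in `M` -/
lemma parity0 {M : Subfield Ω} {s : Ω} (hs : Transcendental M s) {r : M} (f : M[X])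
    (hf : f.eval r ≠ 0) {x : Ω} (hx : x ∈ adj M s)
    (he : x ^ 2 = aeval s ((X - C r) * f)) : False := by
  obtain ⟨g, hg, w, hw⟩ := clear ![x] (by
    intro i
    fin_cases i
    exact hx)
  have hx' : aeval s (w 0) = aeval s g * x := hw 0
  have e1 : w 0 ^ 2 = (X - C r) * f * g ^ 2 := by
    apply aeval_inj hs
    rw [map_pow, hx', map_mul (aeval s) ((X - C r) * f), ← he, map_pow]
    ring
  have key : ∀ n : ℕ, ∀ p g : M[X], g.natDegree = n → p ^ 2 =
      (X - C r) * f * g ^ 2 → g = 0 := by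
    intro n
    induction n using Nat.strong_induction_on with
    | _ n ih =>
    intro p g hn hpq
    by_contra hg0
    have ev := congrArg (Polynomial.eval r) hpq
    simp only [eval_sub, eval_mul, eval_pow, eval_C, eval_X, sub_self, zero_mul] at ev
    have hp0 : p.eval r = 0 := (pow_eq_zero_iff two_ne_zero).1 ev
    obtain ⟨p', rfl⟩ := dvd_iff_isRoot.2 hp0
    have hne : (X - C r) ≠ 0 := X_sub_C_ne_zero r
    have e2 : (X - C r) * (p' ^ 2) = f * g ^ 2 := by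
      apply mul_left_cancel₀ hne
      linear_combination hpq
    have e3 : f.eval r * (g.eval r) ^ 2 = 0 := by
      have := congrArg (Polynomial.eval r) e2
      simp only [eval_sub, eval_mul, eval_pow, eval_C, eval_X, sub_self, zero_mul] at this
      exact this.symm
    have hg1 : g.eval r = 0 := by
      rcases mul_eq_zero.1 e3 with h4 | h4
      · exact absurd h4 hf
      · exact pow_eq_zero_iff (two_ne_zero) |>.1 h4
    obtain ⟨g', rfl⟩ := dvd_iff_isRoot.2 hg1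
    have hg' : g' ≠ 0 := by
      rintro rfl
      simp at hg0
    have e4 : p' ^ 2 = (X - C r) * f * g' ^ 2 := by
      apply mul_left_cancel₀ hne
      linear_combination e2
    have hlt : g'.natDegree < n := by
      rw [← hn, natDegree_mul hne hg', natDegree_X_sub_C]
      omega
    exact hg' (ih _ hlt p' g' rfl e4)
  have := key _ _ g rfl e1
  rw [this] at hg
  simp at hg

lemma Alg_mono {K L : Subfield Ω} (h : K ≤ L) : Alg K ≤ Alg L := by
  intro x hx
  by_contra hx'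
  have h1 : Transcendental L x := fun h => hx' (mem_Alg.2 h)
  exact tr_mono h h1 (mem_Alg.1 hx)

lemma sq_mem_Alg {K : Subfield Ω} {z : Ω} (h : z ^ 2 ∈ Alg K) : z ∈ Alg K := by
  rw [mem_Alg] at h ⊢
  exact h.of_pow two_pos

lemma quad_le {K L : Subfield Ω} {z : Ω} {hz : z ^ 2 ∈ K} (h : K ≤ L) (hzL : z ∈ L) :
    quad K z hz ≤ L := by
  rintro x ⟨p, hp, q, hq, rfl⟩
  exact L.add_mem (h hp) (L.mul_mem (h hq) hzL)

lemma adj_mono {K L : Subfield Ω} (h : K ≤ L) (s : Ω) : adj K s ≤ adj L s :=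
  adj_le (h.trans (le_adj L s)) (self_mem_adj L s)

/-- the discriminant of a nonscalar element is not a square -/
lemma disc_nonsq {K : Subfield Ω} (han : Aniso α β K) {b : Q α β} (hb : inD K b)
    (hbi : b.im ≠ 0) (nb : nr b = 1) : ∀ x ∈ K, x ^ 2 ≠ (2 * b.re) ^ 2 - 4 := by
  intro x hx hx2
  have h2K : (2 : Ω) ∈ K := by
    rw [show (2 : Ω) = 1 + 1 by norm_num]
    exact K.add_mem K.one_mem K.one_mem
  have hel : inD K ((x : Q α β) + (2 : Ω) • b.im) :=
    inD_add (inD_coe hx) (inD_smul h2K ⟨K.zero_mem, hb.2.1, hb.2.2.1, hb.2.2.2⟩)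
  have h0 := han _ hel (by
    simp only [nr, re_add, imI_add, imJ_add, imK_add, re_coe, imI_coe, imJ_coe, imK_coe,
      re_smul, imI_smul, imJ_smul, imK_smul, smul_eq_mul, re_im, imI_im, imJ_im, imK_im] at nb ⊢
    linear_combination hx2 + 4 * nb)
  apply hbi
  have h2 : (2 : Ω) ≠ 0 := two_ne_zero
  have c1 := congrArg QuaternionAlgebra.imI h0
  have c2 := congrArg QuaternionAlgebra.imJ h0
  have c3 := congrArg QuaternionAlgebra.imK h0
  simp only [imI_add, imJ_add, imK_add, imI_coe, imJ_coe, imK_coe, imI_smul, imJ_smul, imK_smul,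
    smul_eq_mul, imI_im, imJ_im, imK_im, zero_add, imI_zero, imJ_zero, imK_zero, mul_eq_zero, h2,
    false_or] at c1 c2 c3
  ext
  · rfl
  · simpa using c1
  · simpa using c2
  · simpa using c3

/-- norms of elements commuting with `b` -/
lemma comm_norm (hα0 : α ≠ 0) (hβ0 : β ≠ 0) {F : Subfield Ω} {b w : Q α β} (hb : inD F b)
    (hw : inD F w) (hbi : b.im ≠ 0) (nb : nr b = 1) (hc : w * b = b * w) :
    ∃ x ∈ F, ∃ y ∈ F, nr w = x ^ 2 - ((2 * b.re) ^ 2 - 4) * y ^ 2 := by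
  have h2F : (2 : Ω) ∈ F := by
    rw [show (2 : Ω) = 1 + 1 by norm_num]
    exact F.add_mem F.one_mem F.one_mem
  have h2 : (2 : Ω) ≠ 0 := two_ne_zero
  suffices h : ∃ y ∈ F, w.imI = y * b.imI ∧ w.imJ = y * b.imJ ∧ w.imK = y * b.imK by
    obtain ⟨y, hy, e1, e2, e3⟩ := h
    refine ⟨w.re, hw.1, y / 2, F.div_mem hy h2F, ?_⟩
    simp only [nr] at nb ⊢
    rw [e1, e2, e3]
    have h5 : y / 2 * 2 = y := div_mul_cancel₀ y h2
    linear_combination y ^ 2 * nb + (b.re ^ 2 - 1) * (y / 2 * 2 + y) * h5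
  have c1 := congrArg QuaternionAlgebra.imI hc
  have c2 := congrArg QuaternionAlgebra.imJ hc
  have c3 := congrArg QuaternionAlgebra.imK hc
  simp only [imI_mul, imJ_mul, imK_mul] at c1 c2 c3
  have d1 : w.imK * b.imJ = w.imJ * b.imK := by
    have : 2 * β * (w.imK * b.imJ - w.imJ * b.imK) = 0 := by linear_combination c1
    have h3 := (mul_eq_zero.1 this).resolve_left (mul_ne_zero h2 hβ0)
    linear_combination h3
  have d2 : w.imI * b.imK = w.imK * b.imI := by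
    have : 2 * α * (w.imI * b.imK - w.imK * b.imI) = 0 := by linear_combination c2
    have h3 := (mul_eq_zero.1 this).resolve_left (mul_ne_zero h2 hα0)
    linear_combination h3
  have d3 : w.imI * b.imJ = w.imJ * b.imI := by
    have : 2 * (w.imI * b.imJ - w.imJ * b.imI) = 0 := by linear_combination c3
    have h3 := (mul_eq_zero.1 this).resolve_left h2
    linear_combination h3
  by_cases e1 : b.imI = 0
  · by_cases e2 : b.imJ = 0
    · have e3 : b.imK ≠ 0 := by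
        intro e3
        apply hbi
        ext
        · rfl
        · simpa using e1
        · simpa using e2
        · simpa using e3
      refine ⟨w.imK / b.imK, F.div_mem hw.2.2.2 hb.2.2.2, ?_, ?_, ?_⟩
      · field_simp
        exact d2
      · field_simp
        exact d1.symm
      · field_simp
    · refine ⟨w.imJ / b.imJ, F.div_mem hw.2.2.1 hb.2.2.1, ?_, ?_, ?_⟩
      · field_simp
        exact d3
      · field_simp
      · field_simp
        exact d1
  · refine ⟨w.imI / b.imI, F.div_mem hw.2.1 hb.2.1, ?_, ?_, ?_⟩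
    · field_simp
    · field_simp
      exact d3.symm
    · field_simp
      exact d2.symm

/-- the trace of the commutator -/
lemma trace_comm {a m : Q α β} (na : nr a = 1) (hm : m * a.im = -(a.im * m)) (hm0 : m.re = 0) :
    (2 * (a * (1 + m) * star a * star (1 + m)).re : Ω) =
      2 + nr m * ((2 * a.re) ^ 2 - 2) := by
  have c0 := congrArg QuaternionAlgebra.re hm
  simp only [re_mul, re_neg, re_im, imI_im, imJ_im, imK_im, hm0] at c0
  have e1 : a = ((a.re : Ω) : Q α β) + a.im := (re_add_im a).symm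
  have e2 : star a = ((a.re : Ω) : Q α β) - a.im := by
    ext <;> simp
  have h1 : m * star a = a * m := by
    rw [e2]
    conv_rhs => rw [e1]
    rw [mul_sub, hm, add_mul, coe_comm]
    abel
  have h2 : a * star a = 1 := by
    rw [mul_star_nr, na]
    rfl
  have h3 : m * m = ((-nr m : Ω) : Q α β) := sq_pure m hm0
  have h5 : star (1 + m) = 1 - m := by
    ext <;> simp [hm0]
  have h6 : a * (1 + m) * star a * star (1 + m) = 1 - m + a * a * m - a * a * (m * m) := by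
    calc a * (1 + m) * star a * star (1 + m) =
          (a * star a + a * (m * star a)) * (1 - m) := by rw [h5]; noncomm_ring
      _ = (1 + a * (a * m)) * (1 - m) := by rw [h1, h2]
      _ = _ := by noncomm_ring
  rw [h6, h3]
  have c1 : (a * a).re = 2 * a.re ^ 2 - 1 := by
    simp only [nr] at na
    simp only [re_mul]
    linear_combination -na
  have c2 : (a * a * m).re = 0 := by
    simp only [re_mul, imI_mul, imJ_mul, imK_mul, hm0]
    linear_combination a.re * c0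
  have c3 : (a * a * ((-nr m : Ω) : Q α β)).re = -nr m * (a * a).re := by
    rw [← coe_comm, coe_mul_eq, re_smul, smul_eq_mul]
  rw [re_sub, re_add, re_sub, re_one, hm0, c2, c3, c1]
  ring

/-- the arithmetic core of the second step -/
theorem core {K : Subfield Ω} {t τ c s₂ s : Ω} (ht : t ∈ K) (hτK : τ ∈ K) (hcK : c ∈ K)
    (hc0 : c ≠ 0) (hδa : t ^ 2 - 4 ≠ 0) (hδb : ∀ x ∈ K, x ^ 2 ≠ τ ^ 2 - 4)
    (hτ : ∀ x ∈ K, x ^ 2 ≠ τ - 2) (hI : iu ∈ K) (hs₂ : Transcendental (Alg K) s₂)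
    (hs : Transcendental (Alg (adj K s₂)) s) {x y : Ω} (hx : x ∈ adj (adj K s₂) s)
    (hy : y ∈ adj (adj K s₂) s)
    (he : x ^ 2 - (τ ^ 2 - 4) * y ^ 2 = (2 + τ) * (1 + c * (1 - (t ^ 2 - 4) * s₂ ^ 2) * s ^ 2) ^ 2
      - (2 + (c * (1 - (t ^ 2 - 4) * s₂ ^ 2) * s ^ 2) * (t ^ 2 - 2)) ^ 2) : False := by
  have h2K : (2 : Ω) ∈ K := by
    rw [show (2 : Ω) = 1 + 1 by norm_num]
    exact K.add_mem K.one_mem K.one_mem
  have h4K : (4 : Ω) ∈ K := by
    rw [show (4 : Ω) = 2 * 2 by norm_num]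
    exact K.mul_mem h2K h2K
  have hτ2 : 2 + τ ≠ 0 := by
    intro h
    refine hτ (2 * iu) (K.mul_mem h2K hI) ?_
    rw [mul_pow, iu_sq]
    linear_combination -h
  -- the square root
  obtain ⟨ρ, hρ, hρt⟩ : ∃ ρ : Ω, ρ ^ 2 = 2 + τ ∧ ρ ≠ t ^ 2 - 2 := by
    obtain ⟨ρ, hρ⟩ := exists_sq (2 + τ)
    by_cases h : ρ = t ^ 2 - 2
    · refine ⟨-ρ, by rw [neg_sq, hρ], ?_⟩
      intro h'
      have : ρ = 0 := by
        have h2 : (2 : Ω) ≠ 0 := two_ne_zero
        have : 2 * ρ = 0 := by linear_combination h - h'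
        exact (mul_eq_zero.1 this).resolve_left h2
      apply hτ2
      rw [← hρ, this]
      ring
    · exact ⟨ρ, hρ, h⟩
  have hρ0 : ρ ≠ 0 := by
    rintro rfl
    apply hτ2
    rw [← hρ]
    ring
  have hρ2 : ρ - 2 ≠ 0 := by
    intro h
    refine hτ 0 K.zero_mem ?_
    have : ρ = 2 := by linear_combination h
    rw [this] at hρ
    linear_combination hρ
  have hA : ρ - t ^ 2 + 2 ≠ 0 := by
    intro h
    apply hρt
    linear_combination h
  have hρK : ρ ^ 2 ∈ K := by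
    rw [hρ]
    exact K.add_mem h2K hτK
  have hδaK : t ^ 2 - 4 ∈ K := K.sub_mem (K.pow_mem ht 2) h4K
  have hδbK : τ ^ 2 - 4 ∈ K := K.sub_mem (K.pow_mem hτK 2) h4K
  have hδb0 : τ ^ 2 - 4 ≠ 0 := by
    intro h
    refine hδb 0 K.zero_mem ?_
    rw [h]
    ring
  -- the field `K(ρ)`
  set M1 := quad K ρ hρK with hM1
  have hKM1 : K ≤ M1 := le_quad K ρ hρK
  have hρM1 : ρ ∈ M1 := self_mem_quad K ρ hρK
  have hM1A : M1 ≤ Alg K := quad_le (le_Alg K) (sq_mem_Alg (le_Alg K hρK))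
  have n1 : ∀ x ∈ M1, x ^ 2 ≠ τ ^ 2 - 4 := by
    rintro x ⟨p, hp, q, hq, rfl⟩ hx
    by_cases hq0 : q = 0
    · rw [hq0] at hx
      exact hδb p hp (by rw [← hx]; ring)
    by_cases hp0 : p = 0
    · refine hτ q hq ?_
      rw [hp0] at hx
      have h1 : (2 + τ) * (q ^ 2 - (τ - 2)) = 0 := by
        linear_combination hx - q ^ 2 * hρ
      have h2 := (mul_eq_zero.1 h1).resolve_left hτ2
      linear_combination h2
    · have hρ' : ρ ∈ K := by
        have : ρ = (τ ^ 2 - 4 - p ^ 2 - q ^ 2 * ρ ^ 2) / (2 * (p * q)) := by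
          field_simp
          linear_combination hx
        rw [this]
        exact K.div_mem (K.sub_mem (K.sub_mem hδbK (K.pow_mem hp 2))
          (K.mul_mem (K.pow_mem hq 2) hρK)) (K.mul_mem h2K (K.mul_mem hp hq))
      exact hδb _ (K.add_mem hp (K.mul_mem hq hρ')) hx
  -- the field `K(ρ)(s₂)`
  have hs₂' : Transcendental M1 s₂ := tr_mono hM1A hs₂
  set M2 := adj M1 s₂ with hM2
  have hM12 : M1 ≤ M2 := le_adj M1 s₂
  have hs2M2 : s₂ ∈ M2 := self_mem_adj M1 s₂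
  have n2 : ∀ x ∈ M2, x ^ 2 ≠ τ ^ 2 - 4 := nonsq_adj hs₂' (hKM1 hδbK) n1
  set e : Ω := 1 - (t ^ 2 - 4) * s₂ ^ 2 with hedef
  have heM2 : e ∈ M2 := M2.sub_mem M2.one_mem (M2.mul_mem (hM12 (hKM1 hδaK)) (M2.pow_mem hs2M2 2))
  -- the polynomial `1 - δ X ^ 2` has a simple root
  obtain ⟨r, hr⟩ := exists_sq ((t ^ 2 - 4)⁻¹)
  have hr0 : r ≠ 0 := by
    rintro rfl
    have : (t ^ 2 - 4)⁻¹ = 0 := by rw [← hr]; ring
    exact inv_ne_zero hδa this
  have hrA : r ∈ Alg K := sq_mem_Alg (by rw [hr]; exact le_Alg K (K.inv_mem hδaK))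
  have hrr : (t ^ 2 - 4) * r ^ 2 = 1 := by
    rw [hr]
    exact mul_inv_cancel₀ hδa
  have nosq : ∀ κ ∈ Alg K, κ ≠ 0 → ∀ q ∈ M2, e ≠ κ * q ^ 2 := by
    intro κ hκ hκ0 q hq heq
    have hqA : q ∈ adj (Alg K) s₂ := adj_mono hM1A s₂ hq
    refine parity0 (M := Alg K) hs₂ (r := ⟨r, hrA⟩)
      (C (⟨-(t ^ 2 - 4) / κ, (Alg K).div_mem ((Alg K).neg_mem (le_Alg K hδaK)) hκ⟩ : Alg K) *
        (X + C (⟨r, hrA⟩ : Alg K))) ?_ hqA ?_
    · intro h0
      have h1 := congrArg (fun x : Alg K => (x : Ω)) h0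
      simp only [eval_mul, eval_C, eval_add, eval_X, Subfield.coe_mul, Subfield.coe_add,
        Subfield.coe_zero] at h1
      rcases mul_eq_zero.1 h1 with h2 | h2
      · rcases div_eq_zero_iff.1 h2 with h3 | h3
        · exact hδa (neg_eq_zero.1 h3)
        · exact hκ0 h3
      · apply hr0
        have h3 : (2 : Ω) * r = 0 := by linear_combination h2
        exact (mul_eq_zero.1 h3).resolve_left two_ne_zero
    · simp only [map_mul, map_sub, map_add, aeval_X, aeval_C]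
      change q ^ 2 = (s₂ - r) * (-(t ^ 2 - 4) / κ * (s₂ + r))
      field_simp
      rw [← sub_eq_zero]
      have : κ * q ^ 2 = 1 - (t ^ 2 - 4) * s₂ ^ 2 := heq.symm
      linear_combination this - hrr
  have he0 : e ≠ 0 := by
    intro h
    refine nosq 1 (Alg K).one_mem one_ne_zero 0 M2.zero_mem ?_
    rw [h]
    ring
  -- the element `ξ`
  obtain ⟨ξ, hξ⟩ := exists_sq (-(ρ - 2) / ((ρ - t ^ 2 + 2) * c * e))
  have hρm2 : ρ - 2 ∈ M1 := M1.sub_mem hρM1 (hKM1 h2K)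
  have hAM1 : ρ - t ^ 2 + 2 ∈ M1 :=
    M1.add_mem (M1.sub_mem hρM1 (hKM1 (K.pow_mem ht 2))) (hKM1 h2K)
  have hξM2 : ξ ^ 2 ∈ M2 := by
    rw [hξ]
    exact M2.div_mem (M2.neg_mem (hM12 hρm2)) (M2.mul_mem (M2.mul_mem (hM12 hAM1)
      (hM12 (hKM1 hcK))) heM2)
  have hξ0 : ξ ≠ 0 := by
    rintro rfl
    have h1 : -(ρ - 2) / ((ρ - t ^ 2 + 2) * c * e) = 0 := by rw [← hξ]; ring
    rcases div_eq_zero_iff.1 h1 with h3 | h3
    · exact hρ2 (neg_eq_zero.1 h3)
    · exact (mul_ne_zero (mul_ne_zero hA hc0) he0) h3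
  have hξe : ξ ^ 2 * ((ρ - t ^ 2 + 2) * c * e) = -(ρ - 2) := by
    rw [hξ]
    field_simp
  set M3 := quad M2 ξ hξM2 with hM3
  have hM23 : M2 ≤ M3 := le_quad M2 ξ hξM2
  have hξM3 : ξ ∈ M3 := self_mem_quad M2 ξ hξM2
  have n3 : ∀ x ∈ M3, x ^ 2 ≠ τ ^ 2 - 4 := by
    rintro x ⟨p, hp, q, hq, rfl⟩ hx
    by_cases hq0 : q = 0
    · rw [hq0] at hx
      exact n2 p hp (by rw [← hx]; ring)
    by_cases hp0 : p = 0
    · -- `q ^ 2 ξ ^ 2 = δ_b`
      rw [hp0] at hx
      have h1 : q ^ 2 * ξ ^ 2 = τ ^ 2 - 4 := by linear_combination hx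
      refine nosq (-(ρ - 2) / ((τ ^ 2 - 4) * ((ρ - t ^ 2 + 2) * c))) ?_ ?_ q hq ?_
      · exact (Alg K).div_mem ((Alg K).neg_mem (hM1A hρm2)) ((Alg K).mul_mem (le_Alg K hδbK)
          ((Alg K).mul_mem (hM1A hAM1) (le_Alg K hcK)))
      · exact div_ne_zero (neg_ne_zero.2 hρ2) (mul_ne_zero hδb0 (mul_ne_zero hA hc0))
      · field_simp
        linear_combination (-((ρ - t ^ 2 + 2) * c * e)) * h1 + q ^ 2 * hξe
    · have hξ' : ξ ∈ M2 := by
        have : ξ = (τ ^ 2 - 4 - p ^ 2 - q ^ 2 * ξ ^ 2) / (2 * (p * q)) := by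
          field_simp
          linear_combination hx
        rw [this]
        exact M2.div_mem (M2.sub_mem (M2.sub_mem (hM12 (hKM1 hδbK)) (M2.pow_mem hp 2))
          (M2.mul_mem (M2.pow_mem hq 2) hξM2)) (M2.mul_mem (hM12 (hKM1 h2K)) (M2.mul_mem hp hq))
      exact n2 _ (M2.add_mem hp (M2.mul_mem hq hξ')) hx
  -- transcendence of `s` over `M3`
  have hF2 : K ≤ adj K s₂ := le_adj K s₂
  have hM1A' : M1 ≤ Alg (adj K s₂) := hM1A.trans (Alg_mono hF2)
  have hM2A : M2 ≤ Alg (adj K s₂) := adj_le hM1A' (le_Alg _ (self_mem_adj K s₂))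
  have hM3A : M3 ≤ Alg (adj K s₂) := quad_le hM2A (sq_mem_Alg (hM2A hξM2))
  have hs3 : Transcendental M3 s := tr_mono hM3A hs
  have hF2M3 : adj K s₂ ≤ M3 := (adj_mono hKM1 s₂).trans hM23
  have hcM3 : c ∈ M3 := hM23 (hM12 (hKM1 hcK))
  have heM3 : e ∈ M3 := hM23 heM2
  have hρM3 : ρ ∈ M3 := hM23 (hM12 hρM1)
  have htM3 : t ∈ M3 := hM23 (hM12 (hKM1 ht))
  have h2M3 : (2 : Ω) ∈ M3 := hM23 (hM12 (hKM1 h2K))
  set A1 : M3 := ⟨(ρ - t ^ 2 + 2) * c * e, M3.mul_mem (M3.mul_mem (hM23 (hM12 hAM1)) hcM3) heM3⟩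
    with hA1
  set B0 : M3 := ⟨ρ + 2, M3.add_mem hρM3 h2M3⟩ with hB0
  set B1 : M3 := ⟨(ρ + t ^ 2 - 2) * c * e, M3.mul_mem (M3.mul_mem (M3.sub_mem
    (M3.add_mem hρM3 (M3.pow_mem htM3 2)) h2M3) hcM3) heM3⟩ with hB1
  refine parity (M := M3) hs3 (δ := ⟨τ ^ 2 - 4, hM23 (hM12 (hKM1 hδbK))⟩) (r := ⟨ξ, hξM3⟩) ?_
    (C A1 * (X + C ⟨ξ, hξM3⟩) * (C B0 + C B1 * X ^ 2)) ?_ (adj_mono hF2M3 s hx)
    (adj_mono hF2M3 s hy) ?_
  · intro x hx
    exact n3 x x.2 (congrArg (fun x : M3 => (x : Ω)) hx)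
  · intro h0
    have h1 := congrArg (fun x : M3 => (x : Ω)) h0
    simp only [eval_mul, eval_C, eval_add, eval_X, eval_pow, Subfield.coe_mul, Subfield.coe_add,
      Subfield.coe_zero, hA1, hB0, hB1, SubmonoidClass.coe_pow] at h1
    have h2 : (2 : Ω) ≠ 0 := two_ne_zero
    have h3 : 2 * ξ * (-2 * (t ^ 2 - 4) * ρ * c * e) = 0 := by
      linear_combination h1 - (2 * ξ) * ((ρ + t ^ 2 - 2) * c * e) * hξe
    have h4 : (-2 : Ω) ≠ 0 := neg_ne_zero.2 two_ne_zero
    exact (mul_ne_zero (mul_ne_zero h2 hξ0) (mul_ne_zero (mul_ne_zero (mul_ne_zero (mul_ne_zero h4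
      hδa) hρ0) hc0) he0)) h3
  · simp only [map_mul, map_sub, map_add, map_pow, aeval_X, aeval_C]
    change x ^ 2 - (τ ^ 2 - 4) * y ^ 2 = (s - ξ) * ((ρ - t ^ 2 + 2) * c * e * (s + ξ) *
      ((ρ + 2) + (ρ + t ^ 2 - 2) * c * e * s ^ 2))
    rw [he, ← hρ]
    linear_combination ((ρ + 2) + (ρ + t ^ 2 - 2) * c * e * s ^ 2) * hξe

end Pool.Agent.Y58.TFS
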