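import Pool.Agent.Y58.TFS.Ext2

set_option autoImplicit false
set_option linter.unusedSectionVars false

/-!
The second extension step, assembled.
-/

namespace Pool.Agent.Y58.TFS

open Polynomial Pool.Agent.H918R3 QuaternionAlgebra Cardinal

variable {Ω : Type*} [Field Ω] [IsAlgClosed Ω] [Uncountable Ω] [NeZero (2 : Ω)]

variable {α β : Ω}

/-- the trace parameter of `[a, g]` -/
noncomputable def TT (a g : Q α β) : Ω := 2 * (a * g * star a * qinv g).re

theorem ext2 {K : Subfield Ω} (hα : α ∈ K) (hβ : β ∈ K) (hI : iu ∈ K)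
    (han : Aniso α β K) (hc : Countable K) {a b : Q α β} (ha : inD K a) (hb : inD K b)
    (na : nr a = 1) (nb : nr b = 1) (hai : a.im ≠ 0) (hbi : b.im ≠ 0)
    (hτ : ∀ x ∈ K, x ^ 2 ≠ 2 * b.re - 2) :
    ∃ K' : Subfield Ω, K ≤ K' ∧ Countable K' ∧ Aniso α β K' ∧
      ∃ g w : Q α β, inD K' g ∧ g ≠ 0 ∧ inD K' w ∧ w * b = star b * w ∧
        nr w = 1 - TT a g ^ 2 / (2 + 2 * b.re) := by
  have h2 : (2 : Ω) ≠ 0 := two_ne_zero
  have hα0 : α ≠ 0 := α_ne han hα
  have hβ0 : β ≠ 0 := β_ne han hα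
  have h2K : (2 : Ω) ∈ K := by
    rw [show (2 : Ω) = 1 + 1 by norm_num]
    exact K.add_mem K.one_mem K.one_mem
  obtain ⟨s₂, hs₂⟩ := exists_tr K hc
  set F2 := adj K s₂ with hF2
  have hcF2 : Countable F2 := countable_adj K hc s₂
  have hKF2 : K ≤ F2 := le_adj K s₂
  have hs2F2 : s₂ ∈ F2 := self_mem_adj K s₂
  have hanF2 : Aniso α β F2 := aniso_adjoin hα hβ han (tr_mono (le_Alg K) hs₂)
  obtain ⟨s, hs⟩ := exists_tr F2 hcF2
  set F := adj F2 s with hF
  have hcF : Countable F := countable_adj F2 hcF2 s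
  have hF2F : F2 ≤ F := le_adj F2 s
  have hKF : K ≤ F := hKF2.trans hF2F
  have hsF : s ∈ F := self_mem_adj F2 s
  have hanF : Aniso α β F := aniso_adjoin (hKF2 hα) (hKF2 hβ) hanF2 (tr_mono (le_Alg F2) hs)
  have haim : inD K a.im := ⟨K.zero_mem, ha.2.1, ha.2.2.1, ha.2.2.2⟩
  obtain ⟨j, hj, hj0, hja⟩ := exists_anticomm hα hβ han a.im haim rfl hai
  have hnj : nr j ≠ 0 := nr_ne han hj hj0
  have hj0' := congrArg QuaternionAlgebra.re hja
  have hj1' := congrArg QuaternionAlgebra.imI hja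
  have hj2' := congrArg QuaternionAlgebra.imJ hja
  have hj3' := congrArg QuaternionAlgebra.imK hja
  simp only [re_mul, imI_mul, imJ_mul, imK_mul, re_neg, imI_neg, imJ_neg, imK_neg, re_im, imI_im,
    imJ_im, imK_im] at hj0' hj1' hj2' hj3'
  have hjre : j.re = 0 := by
    by_contra hne
    apply hai
    ext
    · rfl
    · have : 2 * (j.re * a.imI) = 0 := by linear_combination hj1'
      simpa [hne, h2] using this
    · have : 2 * (j.re * a.imJ) = 0 := by linear_combination hj2'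
      simpa [hne, h2] using this
    · have : 2 * (j.re * a.imK) = 0 := by linear_combination hj3'
      simpa [hne, h2] using this
  set η : Q α β := 1 + s₂ • ((2 : Ω) • a.im) with hη
  set m : Q α β := s • (η * j) with hm
  have hηF : inD F η := inD_add inD_one (inD_smul (hF2F hs2F2) (inD_smul (hKF h2K)
    (inD_mono hKF haim)))
  have hmF : inD F m := inD_smul hsF (inD_mul (hKF hα) (hKF hβ) hηF (inD_mono hKF hj))
  have hηc : η * a.im = a.im * η := by
    rw [hη, add_mul, mul_add, one_mul, mul_one, smul_mul_assoc, smul_mul_assoc, mul_smul_comm,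
      mul_smul_comm]
  have hma : m * a.im = -(a.im * m) := by
    rw [hm, smul_mul_assoc, mul_smul_comm, ← smul_neg]
    congr 1
    calc η * j * a.im = η * (j * a.im) := by noncomm_ring
      _ = -((η * a.im) * j) := by rw [hja]; noncomm_ring
      _ = -(a.im * (η * j)) := by rw [hηc]; noncomm_ring
  have hmre : m.re = 0 := by
    rw [hm, re_smul, smul_eq_mul]
    have : (η * j).re = 0 := by
      simp only [hη, re_mul, re_add, imI_add, imJ_add, imK_add, re_one, imI_one, imJ_one, imK_one,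
        re_smul, imI_smul, imJ_smul, imK_smul, smul_eq_mul, re_im, imI_im, imJ_im, imK_im, hjre]
      have h0 : 2 * (α * (j.imI * a.imI) + β * (j.imJ * a.imJ) - α * β * (j.imK * a.imK)) = 0 := by
        linear_combination hj0'
      have h1 := (mul_eq_zero.1 h0).resolve_left h2
      linear_combination 2 * s₂ * h1
    rw [this, mul_zero]
  have hnη : nr η = 1 - ((2 * a.re) ^ 2 - 4) * s₂ ^ 2 := by
    simp only [nr] at na
    simp only [hη, nr, re_add, imI_add, imJ_add, imK_add, re_one, imI_one, imJ_one, imK_one,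
      re_smul, imI_smul, imJ_smul, imK_smul, smul_eq_mul, re_im, imI_im, imJ_im, imK_im]
    linear_combination 4 * s₂ ^ 2 * na
  have hnm : nr m = nr j * (1 - ((2 * a.re) ^ 2 - 4) * s₂ ^ 2) * s ^ 2 := by
    rw [hm, nr_smul, nr_mul, hnη]
    ring
  set g : Q α β := 1 + m with hg
  have hgF : inD F g := inD_add inD_one hmF
  have hg0 : g ≠ 0 := by
    intro h
    have := congrArg QuaternionAlgebra.re h
    rw [hg, re_add, hmre, re_one, re_zero, add_zero] at this
    exact one_ne_zero this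
  have hng : nr g = 1 + nr m := by
    simp only [hg, nr, re_add, imI_add, imJ_add, imK_add, re_one, imI_one, imJ_one, imK_one, hmre]
    ring
  have hng0 : nr g ≠ 0 := nr_ne hanF hgF hg0
  set T := TT a g with hT
  have hTg : T * nr g = 2 + nr m * ((2 * a.re) ^ 2 - 2) := by
    rw [← trace_comm na hma hmre, hT, TT, qinv, mul_smul_comm, re_smul, smul_eq_mul, ← hg]
    field_simp
  have hTF : T ∈ F := F.mul_mem (hKF h2K) (inD_mul (hKF hα) (hKF hβ) (inD_mul (hKF hα) (hKF hβ)
    (inD_mul (hKF hα) (hKF hβ) (inD_mono hKF ha) hgF) (inD_star (inD_mono hKF ha)))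
    (inD_qinv (hKF hα) (hKF hβ) hgF)).1
  have hτ2 : 2 + 2 * b.re ≠ 0 := by
    intro h
    refine hτ (2 * iu) (K.mul_mem h2K hI) ?_
    rw [mul_pow, iu_sq]
    linear_combination -h
  have hbreK : b.re ∈ K := hb.1
  have hareK : a.re ∈ K := ha.1
  -- the contradiction
  have key : ∀ x ∈ F, ∀ y ∈ F, x ^ 2 - ((2 * b.re) ^ 2 - 4) * y ^ 2 ≠
      (2 + 2 * b.re) * (1 - T ^ 2 / (2 + 2 * b.re)) * nr g ^ 2 := by
    intro x hx y hy hxy
    refine core (K := K) (t := 2 * a.re) (τ := 2 * b.re) (c := nr j) (K.mul_mem h2K hareK)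
      (K.mul_mem h2K hbreK) (nr_mem hα hβ hj) hnj ?_ (disc_nonsq han hb hbi nb) hτ hI hs₂ hs hx hy ?_
    · intro h0
      exact disc_nonsq han ha hai na 0 K.zero_mem (by rw [h0]; ring)
    · have e1 : (2 + 2 * b.re) * (1 - T ^ 2 / (2 + 2 * b.re)) = 2 + 2 * b.re - T ^ 2 := by
        rw [mul_sub, mul_one, mul_div_cancel₀ _ hτ2]
      rw [hxy, ← hnm, ← hng, ← hTg, e1]
      ring
  have he0 : 1 - T ^ 2 / (2 + 2 * b.re) ≠ 0 := by
    intro h0
    refine key 0 F.zero_mem 0 F.zero_mem ?_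
    rw [h0]
    ring
  have heF : 1 - T ^ 2 / (2 + 2 * b.re) ∈ F :=
    F.sub_mem F.one_mem (F.div_mem (F.pow_mem hTF 2)
      (hKF (K.add_mem h2K (K.mul_mem h2K hbreK))))
  rcases ext1' (hKF hα) (hKF hβ) (hKF hI) hanF hcF (inD_mono hKF hb) hbi heF he0 with
    ⟨w, hw, hwn, hwb⟩ | ⟨K', hFK', hcK', hanK', w, hw, hwn, hwb⟩
  · exfalso
    obtain ⟨x, hx, y, hy, hxy⟩ := comm_norm (w := nr g • ((1 + b) * w)) hα0 hβ0
      (inD_mono hKF hb) (inD_smul (nr_mem (hKF hα) (hKF hβ) hgF) (inD_mul (hKF hα) (hKF hβ)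
      (inD_add inD_one (inD_mono hKF hb)) hw)) hbi nb (by
        rw [smul_mul_assoc, mul_smul_comm]
        congr 1
        calc (1 + b) * w * b = (1 + b) * (w * b) := by noncomm_ring
          _ = b * ((1 + b) * w) := by rw [hwb]; noncomm_ring)
    refine key x hx y hy ?_
    rw [← hxy, nr_smul, nr_mul, hwn]
    have h1b : nr (1 + b) = 2 + 2 * b.re := by
      simp only [nr] at nb
      simp only [nr, re_add, imI_add, imJ_add, imK_add, re_one, imI_one, imJ_one, imK_one]
      linear_combination nb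
    rw [h1b]
    ring
  · exact ⟨K', hKF.trans hFK', hcK', hanK', g, w, inD_mono hFK' hgF, hg0, hw, hwb, hwn⟩

end Pool.Agent.Y58.TFS
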