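import Mathlib
import Pool.Agent.H918R3.TCP

set_option autoImplicit false
set_option linter.unusedSectionVars false

/-!
Subfields of `Ω`: simple transcendental extensions and quadratic extensions.
-/

namespace Pool.Agent.Y58.TFS

open Polynomial Pool.Agent.H918R3

variable {Ω : Type*} [Field Ω] [IsAlgClosed Ω] [Uncountable Ω] [NeZero (2 : Ω)]

/-- a square root of `-1` -/
noncomputable def iu : Ω := (IsAlgClosed.exists_pow_nat_eq (-1 : Ω) two_pos).choose

omit [Uncountable Ω] [NeZero (2 : Ω)] in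
lemma iu_sq : (iu : Ω) ^ 2 = -1 := (IsAlgClosed.exists_pow_nat_eq (-1 : Ω) two_pos).choose_spec

lemma two_ne_K (K : Subfield Ω) : (2 : K) ≠ 0 := by
  intro h
  have h2 : K.subtype 2 = K.subtype 0 := congrArg K.subtype h
  rw [map_ofNat, map_zero] at h2
  exact two_ne_zero h2

/-- `K(s)` -/
noncomputable def adj (K : Subfield Ω) (s : Ω) : Subfield Ω :=
  (IntermediateField.adjoin K {s}).toSubfield

lemma mem_adj {K : Subfield Ω} {s x : Ω} :
    x ∈ adj K s ↔ ∃ p q : K[X], x = aeval s p / aeval s q := by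
  change x ∈ IntermediateField.adjoin K {s} ↔ _
  exact IntermediateField.mem_adjoin_simple_iff K x

lemma le_adj (K : Subfield Ω) (s : Ω) : K ≤ adj K s := by
  intro x hx
  exact (IntermediateField.adjoin K {s}).algebraMap_mem ⟨x, hx⟩

lemma self_mem_adj (K : Subfield Ω) (s : Ω) : s ∈ adj K s :=
  IntermediateField.mem_adjoin_simple_self K s

lemma adj_le {K L : Subfield Ω} {s : Ω} (h : K ≤ L) (hs : s ∈ L) : adj K s ≤ L := by
  intro x hx
  obtain ⟨p, q, rfl⟩ := mem_adj.1 hx
  have key : ∀ p : K[X], aeval s p ∈ L := by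
    intro p
    rw [aeval_eq_sum_range]
    refine L.sum_mem fun i _ => ?_
    rw [Algebra.smul_def]
    exact L.mul_mem (h (p.coeff i).2) (L.pow_mem hs _)
  exact L.div_mem (key p) (key q)

lemma aeval_mem_adj {K : Subfield Ω} {s : Ω} (p : K[X]) : aeval s p ∈ adj K s :=
  mem_adj.2 ⟨p, 1, by simp⟩

/-- common denominators -/
lemma clear {K : Subfield Ω} {s : Ω} {n : ℕ} (v : Fin n → Ω) (hv : ∀ i, v i ∈ adj K s) :
    ∃ g : K[X], aeval s g ≠ 0 ∧ ∃ w : Fin n → K[X], ∀ i, aeval s (w i) = aeval s g * v i := by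
  have h1 : ∀ i, ∃ p q : K[X], aeval s q ≠ 0 ∧ aeval s p = aeval s q * v i := by
    intro i
    obtain ⟨p, q, h⟩ := mem_adj.1 (hv i)
    by_cases hq : aeval s q = 0
    · refine ⟨0, 1, by simp, ?_⟩
      rw [h, hq]
      simp
    · refine ⟨p, q, hq, ?_⟩
      rw [h]
      field_simp
  choose p q hq hpq using h1
  refine ⟨∏ i, q i, ?_, fun i => p i * ∏ j ∈ Finset.univ.erase i, q j, fun i => ?_⟩
  · rw [map_prod]
    exact Finset.prod_ne_zero_iff.2 fun i _ => hq i
  · rw [map_mul, hpq, ← Finset.mul_prod_erase Finset.univ q (Finset.mem_univ i), map_mul]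
    ring

lemma aeval_inj {K : Subfield Ω} {s : Ω} (hs : Transcendental K s) {p q : K[X]}
    (h : aeval s p = aeval s q) : p = q := by
  have := (transcendental_iff_injective (R := K) (x := s)).1 hs
  exact this h

/-- a form anisotropic over `K` is anisotropic over `K(s)` -/
lemma aniso_adj {K : Subfield Ω} {s : Ω} (hs : Transcendental K s) {n : ℕ} (a : Fin n → K)
    (han : ∀ v : Fin n → K, ∑ i, a i * v i ^ 2 = 0 → v = 0) (v : Fin n → Ω)
    (hv : ∀ i, v i ∈ adj K s) (h : ∑ i, (a i : Ω) * v i ^ 2 = 0) : v = 0 := by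
  obtain ⟨g, hg, w, hw⟩ := clear v hv
  have h1 : w = 0 := by
    apply cp_aniso_poly a han
    apply aeval_inj hs
    rw [map_sum, map_zero, ← mul_zero ((aeval s g) ^ 2), ← h, Finset.mul_sum]
    refine Finset.sum_congr rfl fun i _ => ?_
    rw [map_mul, map_pow, hw i, aeval_C]
    change (a i : Ω) * _ = _
    ring
  funext i
  have h2 := hw i
  rw [h1, Pi.zero_apply, map_zero] at h2
  rcases mul_eq_zero.1 h2.symm with h4 | h4
  · exact absurd h4 hg
  · exact h4

/-- the theorem of Cassels and Pfister for polynomials `c₀ + c₂ X²` -/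
lemma cp_adj {K : Subfield Ω} {s : Ω} (hs : Transcendental K s) {n : ℕ} (a : Fin n → K)
    (han : ∀ v : Fin n → K, ∑ i, a i * v i ^ 2 = 0 → v = 0) (v : Fin n → Ω)
    (hv : ∀ i, v i ∈ adj K s) (c₀ c₂ : K)
    (h : ∑ i, (a i : Ω) * v i ^ 2 = c₀ + c₂ * s ^ 2) :
    ∃ u w : Fin n → K, ∑ i, a i * u i ^ 2 = c₀ ∧ ∑ i, a i * w i ^ 2 = c₂ ∧
      ∑ i, a i * (u i * w i) = 0 := by
  obtain ⟨g, hg, w, hw⟩ := clear v hv
  set P : K[X] := C c₀ + C c₂ * X ^ 2 with hP
  have hsP : aeval s P = c₀ + c₂ * s ^ 2 := by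
    rw [hP]
    simp only [map_add, map_mul, map_pow, aeval_X, aeval_C]
    rfl
  obtain ⟨w', hw'⟩ := cp_descent (fun i => C (a i)) (fun i => by simp)
    (fun w hw => cp_aniso_poly a han w hw) P g.natDegree g w rfl
    (by rintro rfl; exact hg (by simp)) (by
      apply aeval_inj hs
      rw [map_sum, map_mul, map_pow, hsP, ← h, Finset.sum_mul]
      refine Finset.sum_congr rfl fun i _ => ?_
      rw [map_mul, map_pow, hw i, aeval_C]
      change (a i : Ω) * _ = _
      ring)
  have hdeg := cp_deg a han w' 1 (fun m hm => by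
    rw [hw', hP]
    simp only [coeff_add, coeff_C_mul, coeff_X_pow, coeff_C]
    rw [if_neg (by omega), if_neg (by omega)]
    simp)
  have hform : ∀ i, w' i = C ((w' i).coeff 0) + C ((w' i).coeff 1) * X := by
    intro i
    rw [add_comm]
    exact Polynomial.eq_X_add_C_of_natDegree_le_one (hdeg i)
  refine ⟨fun i => (w' i).coeff 0, fun i => (w' i).coeff 1, ?_, ?_, ?_⟩
  · have := congrArg (fun p : K[X] => p.coeff 0) hw'
    simp only [finsetSum_coeff, hP] at this
    rw [coeff_add, coeff_C_mul, coeff_C, coeff_X_pow] at this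
    simp only [if_true, show (0 : ℕ) ≠ 2 by omega, if_false, mul_zero, add_zero] at this
    rw [← this]
    refine Finset.sum_congr rfl fun i _ => ?_
    rw [coeff_C_mul, pow_two (w' i), mul_coeff_zero]
    ring
  · have := congrArg (fun p : K[X] => p.coeff (2 * 1)) hw'
    simp only [finsetSum_coeff, hP] at this
    rw [coeff_add, coeff_C_mul, coeff_C, coeff_X_pow] at this
    simp only [show (2 * 1 : ℕ) = 2 by omega, if_true, show (2 : ℕ) ≠ 0 by omega, if_false,
      mul_one, zero_add] at this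
    rw [← this]
    refine Finset.sum_congr rfl fun i _ => ?_
    rw [coeff_C_mul]
    have h2 : ((w' i) ^ 2).coeff (2 * 1) = ((w' i).coeff 1) ^ 2 :=
      Polynomial.coeff_pow_of_natDegree_le (hdeg i)
    rw [show (2 : ℕ) = 2 * 1 by omega, h2]
  · have := congrArg (fun p : K[X] => p.coeff 1) hw'
    simp only [finsetSum_coeff, hP] at this
    rw [coeff_add, coeff_C_mul, coeff_C, coeff_X_pow] at this
    simp only [show (1 : ℕ) ≠ 0 by omega, show (1 : ℕ) ≠ 2 by omega, if_false, mul_zero,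
      add_zero] at this
    have h2 : ∀ i, (C (a i) * w' i ^ 2).coeff 1 =
        2 * (a i * ((w' i).coeff 0 * (w' i).coeff 1)) := by
      intro i
      rw [coeff_C_mul, pow_two, mul_coeff_one]
      ring
    simp only [h2] at this
    rw [← Finset.mul_sum] at this
    have h3 : (2 : K) ≠ 0 := two_ne_K K
    exact (mul_eq_zero.1 this).resolve_left h3

/-- an element of `K` that is not a square in `K` is not a square in `K(s)` -/
lemma nonsq_adj {K : Subfield Ω} {s : Ω} (hs : Transcendental K s) {δ : Ω} (hδ : δ ∈ K)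
    (h : ∀ x ∈ K, x ^ 2 ≠ δ) : ∀ x ∈ adj K s, x ^ 2 ≠ δ := by
  intro x hx hxd
  have h1 := aniso_adj hs ![(1 : K), -⟨δ, hδ⟩] (by
    intro v hv
    rw [Fin.sum_univ_two] at hv
    simp only [Matrix.cons_val_zero, Matrix.cons_val_one, one_mul] at hv
    have hv' : ((v 0 : K) : Ω) ^ 2 - δ * (v 1 : Ω) ^ 2 = 0 := by
      have := congrArg (fun x : K => (x : Ω)) hv
      simpa [sub_eq_add_neg] using this
    by_cases h0 : v 1 = 0
    · rw [h0] at hv'
      have h2 : v 0 = 0 := by
        apply Subtype.ext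
        simpa using hv'
      funext i
      fin_cases i
      · exact h2
      · exact h0
    · exfalso
      have h0' : (v 1 : Ω) ≠ 0 := fun hh => h0 (Subtype.ext hh)
      refine h (v 0 / v 1) (K.div_mem (v 0).2 (v 1).2) ?_
      field_simp
      linear_combination hv') ![x, 1] (by
    intro i
    fin_cases i
    · exact hx
    · exact (adj K s).one_mem) (by
    rw [Fin.sum_univ_two]
    simp [hxd])
  have := congrFun h1 1
  simp at this

/-- parity: `f (s)` is not of the form `x ^ 2 - δ y ^ 2` if `f` has a simple root in `M` and `δ`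
is not a square in `M` -/
lemma parity {M : Subfield Ω} {s : Ω} (hs : Transcendental M s) {δ r : M}
    (h : ∀ x : M, x ^ 2 ≠ δ) (f : M[X]) (hf : f.eval r ≠ 0) {x y : Ω} (hx : x ∈ adj M s)
    (hy : y ∈ adj M s) (he : x ^ 2 - δ * y ^ 2 = aeval s ((X - C r) * f)) : False := by
  obtain ⟨g, hg, w, hw⟩ := clear ![x, y] (by
    intro i
    fin_cases i
    · exact hx
    · exact hy)
  have hx' : aeval s (w 0) = aeval s g * x := hw 0
  have hy' : aeval s (w 1) = aeval s g * y := hw 1
  have e1 : w 0 ^ 2 - C δ * w 1 ^ 2 = (X - C r) * f * g ^ 2 := by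
    apply aeval_inj hs
    rw [map_sub, map_mul, map_pow, map_pow, hx', hy', map_mul (aeval s) ((X - C r) * f), ← he,
      map_pow, aeval_C]
    change _ - (δ : Ω) * _ = _
    ring
  -- descent
  have key : ∀ n : ℕ, ∀ p q g : M[X], g.natDegree = n → p ^ 2 - C δ * q ^ 2 =
      (X - C r) * f * g ^ 2 → g = 0 := by
    intro n
    induction n using Nat.strong_induction_on with
    | _ n ih =>
    intro p q g hn hpq
    by_contra hg0
    have ev := congrArg (Polynomial.eval r) hpq
    simp only [eval_sub, eval_mul, eval_pow, eval_C, eval_X, sub_self, zero_mul] at ev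
    have hq0 : q.eval r = 0 := by
      by_contra hq0
      refine h (p.eval r / q.eval r) ?_
      field_simp
      linear_combination ev
    have hp0 : p.eval r = 0 := by
      rw [hq0] at ev
      simpa using ev
    obtain ⟨p', rfl⟩ := dvd_iff_isRoot.2 hp0
    obtain ⟨q', rfl⟩ := dvd_iff_isRoot.2 hq0
    have hne : (X - C r) ≠ 0 := X_sub_C_ne_zero r
    have e2 : (X - C r) * (p' ^ 2 - C δ * q' ^ 2) = f * g ^ 2 := by
      apply mul_left_cancel₀ hne
      linear_combination hpq
    have e3 : f.eval r * (g.eval r) ^ 2 = 0 := by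
      have := congrArg (Polynomial.eval r) e2
      simp only [eval_sub, eval_mul, eval_pow, eval_C, eval_X, sub_self, zero_mul] at this
      exact this.symm
    have hg1 : g.eval r = 0 := by
      rcases mul_eq_zero.1 e3 with h4 | h4
      · exact absurd h4 hf
      · exact pow_eq_zero_iff (two_ne_zero) |>.1 h4
    obtain ⟨g', rfl⟩ := dvd_iff_isRoot.2 hg1
    have hg' : g' ≠ 0 := by
      rintro rfl
      simp at hg0
    have e4 : p' ^ 2 - C δ * q' ^ 2 = (X - C r) * f * g' ^ 2 := by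
      apply mul_left_cancel₀ hne
      linear_combination e2
    have hlt : g'.natDegree < n := by
      rw [← hn, natDegree_mul hne hg', natDegree_X_sub_C]
      omega
    exact hg' (ih _ hlt p' q' g' rfl e4)
  have := key _ _ _ g rfl e1
  rw [this] at hg
  simp at hg

/-- quadratic extension `K(z)`, `z ^ 2 ∈ K` -/
def quad (K : Subfield Ω) (z : Ω) (hz : z ^ 2 ∈ K) : Subfield Ω where
  carrier := {x | ∃ p ∈ K, ∃ q ∈ K, x = p + q * z}
  mul_mem' := by
    rintro _ _ ⟨p, hp, q, hq, rfl⟩ ⟨p', hp', q', hq', rfl⟩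
    refine ⟨p * p' + q * q' * z ^ 2, ?_, p * q' + q * p', ?_, by ring⟩
    · exact K.add_mem (K.mul_mem hp hp') (K.mul_mem (K.mul_mem hq hq') hz)
    · exact K.add_mem (K.mul_mem hp hq') (K.mul_mem hq hp')
  one_mem' := ⟨1, K.one_mem, 0, K.zero_mem, by ring⟩
  add_mem' := by
    rintro _ _ ⟨p, hp, q, hq, rfl⟩ ⟨p', hp', q', hq', rfl⟩
    exact ⟨p + p', K.add_mem hp hp', q + q', K.add_mem hq hq', by ring⟩
  zero_mem' := ⟨0, K.zero_mem, 0, K.zero_mem, by ring⟩
  neg_mem' := by
    rintro _ ⟨p, hp, q, hq, rfl⟩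
    exact ⟨-p, K.neg_mem hp, -q, K.neg_mem hq, by ring⟩
  inv_mem' := by
    rintro _ ⟨p, hp, q, hq, rfl⟩
    by_cases h : p ^ 2 - q ^ 2 * z ^ 2 = 0
    · have h1 : (p - q * z) * (p + q * z) = 0 := by linear_combination h
      rcases mul_eq_zero.1 h1 with h2 | h2
      · refine ⟨(2 * p)⁻¹, K.inv_mem (K.mul_mem (by
          rw [show (2 : Ω) = 1 + 1 by norm_num]; exact K.add_mem K.one_mem K.one_mem) hp), 0,
          K.zero_mem, ?_⟩
        have h3 : p + q * z = 2 * p := by linear_combination -h2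
        rw [h3]
        ring
      · refine ⟨0, K.zero_mem, 0, K.zero_mem, ?_⟩
        rw [h2]
        simp
    · have h0 : p + q * z ≠ 0 := by
        intro h0
        apply h
        linear_combination (p - q * z) * h0
      have hm : p ^ 2 - q ^ 2 * z ^ 2 ∈ K :=
        K.sub_mem (K.pow_mem hp 2) (K.mul_mem (K.pow_mem hq 2) hz)
      refine ⟨p / (p ^ 2 - q ^ 2 * z ^ 2), K.div_mem hp hm, -q / (p ^ 2 - q ^ 2 * z ^ 2),
        K.div_mem (K.neg_mem hq) hm, ?_⟩
      apply inv_eq_of_mul_eq_one_right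
      field_simp
      ring

lemma mem_quad {K : Subfield Ω} {z : Ω} {hz : z ^ 2 ∈ K} {x : Ω} :
    x ∈ quad K z hz ↔ ∃ p ∈ K, ∃ q ∈ K, x = p + q * z := Iff.rfl

lemma le_quad (K : Subfield Ω) (z : Ω) (hz : z ^ 2 ∈ K) : K ≤ quad K z hz := fun x hx =>
  ⟨x, hx, 0, K.zero_mem, by ring⟩

lemma self_mem_quad (K : Subfield Ω) (z : Ω) (hz : z ^ 2 ∈ K) : z ∈ quad K z hz :=
  ⟨0, K.zero_mem, 1, K.one_mem, by ring⟩

end Pool.Agent.Y58.TFS
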