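import Pool.Agent.Y58.TFS.Chain

set_option autoImplicit false
set_option linter.unusedSectionVars false

/-!
The group theory.
-/

namespace Pool.Agent.Y58.TFS

open QuaternionAlgebra

variable {Ω : Type*} [Field Ω] [IsAlgClosed Ω] [Uncountable Ω] [NeZero (2 : Ω)]

variable {α β : Ω} {K : Subfield Ω}

/-- the unit attached to an element of nonzero norm -/
noncomputable def mkU (x : Q α β) (h : nr x ≠ 0) : (Q α β)ˣ := ⟨x, qinv x, mul_qinv h, qinv_mul h⟩

@[simp] lemma mkU_val (x : Q α β) (h : nr x ≠ 0) : (mkU x h : Q α β) = x := rfl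

@[simp] lemma mkU_inv (x : Q α β) (h : nr x ≠ 0) : ((mkU x h)⁻¹ : (Q α β)ˣ) = qinv x := rfl

lemma qinv_of_one {x : Q α β} (h : nr x = 1) : qinv x = star x := by
  rw [qinv, h, inv_one, one_smul]

lemma inv_val {u : (Q α β)ˣ} (h : nr (u : Q α β) = 1) : ((u⁻¹ : (Q α β)ˣ) : Q α β) = star (u : Q α β) := by
  rw [Units.inv_eq_of_mul_eq_one_right]
  rw [mul_star_nr, h]
  rfl

/-- the norm one elements with coordinates in `K` -/
def G1 (K : Subfield Ω) (hα : α ∈ K) (hβ : β ∈ K) : Subgroup (Q α β)ˣ where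
  carrier := {u | inD K (u : Q α β) ∧ nr (u : Q α β) = 1}
  mul_mem' := by
    rintro a b ⟨ha, na⟩ ⟨hb, nb⟩
    refine ⟨?_, ?_⟩
    · rw [Units.val_mul]
      exact inD_mul hα hβ ha hb
    · rw [Units.val_mul, nr_mul, na, nb, one_mul]
  one_mem' := ⟨by rw [Units.val_one]; exact inD_one, by rw [Units.val_one]; exact nr_one⟩
  inv_mem' := by
    rintro a ⟨ha, na⟩
    refine ⟨?_, ?_⟩
    · rw [inv_val na]
      exact inD_star ha
    · rw [inv_val na, nr_star, na]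

lemma mem_G1 {hα : α ∈ K} {hβ : β ∈ K} {u : (Q α β)ˣ} :
    u ∈ G1 K hα hβ ↔ inD K (u : Q α β) ∧ nr (u : Q α β) = 1 := Iff.rfl

lemma nr_sub_coe (x : Q α β) (c : Ω) : nr (x - (c : Q α β)) = nr x - 2 * x.re * c + c ^ 2 := by
  simp [nr]
  ring

lemma eq_coe_of_im {x : Q α β} (h : x.im = 0) : x = ((x.re : Ω) : Q α β) := by
  have := re_add_im x
  rw [h, add_zero] at this
  exact this.symm

lemma nr_coe (c : Ω) : nr ((c : Ω) : Q α β) = c ^ 2 := by
  simp [nr]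

lemma im_coe' (c : Ω) : ((c : Ω) : Q α β).im = 0 := by
  ext <;> simp

/-- conjugation by nonzero elements of `D_K` preserves sets closed under inversion and under
conjugation by `G1` -/
lemma conj_mem {hα : α ∈ K} {hβ : β ∈ K} (han : Aniso α β K)
    (h1 : ∀ (a : Q α β) (ν : Ω), inD K a → ν ∈ K → S1 a ν K)
    {N : Set (Q α β)ˣ} (hN : ∀ n ∈ N, n ∈ G1 K hα hβ)
    (hnorm : ∀ n ∈ N, ∀ g ∈ G1 K hα hβ, g * n * g⁻¹ ∈ N) (hinv : ∀ n ∈ N, n⁻¹ ∈ N)
    {n : (Q α β)ˣ} (hn : n ∈ N) {h : Q α β} (hh : inD K h) (hh0 : h ≠ 0) :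
    mkU h (nr_ne han hh hh0) * n * (mkU h (nr_ne han hh hh0))⁻¹ ∈ N := by
  set H := mkU h (nr_ne han hh hh0) with hH
  have hnh := nr_ne han hh hh0
  by_cases hni : (n : Q α β).im = 0
  · have : H * n * H⁻¹ = n := by
      rw [mul_inv_eq_iff_eq_mul]
      apply Units.ext
      rw [Units.val_mul, Units.val_mul, eq_coe_of_im hni]
      exact (coe_comm _ _).symm
    rw [this]
    exact hn
  · obtain ⟨w, hw, hwn, hwc⟩ := h1 (n : Q α β) (nr h) (hN n hn).1 (nr_mem hα hβ hh) hni hnh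
    have hnw : nr w ≠ 0 := by rw [hwn]; exact hnh
    set W := mkU w hnw with hW
    have hg : H * W⁻¹ ∈ G1 K hα hβ := by
      refine mem_G1.2 ⟨?_, ?_⟩
      · rw [Units.val_mul, hW, hH, mkU_inv, mkU_val]
        exact inD_mul hα hβ hh (inD_qinv hα hβ hw)
      · rw [Units.val_mul, hW, hH, mkU_inv, mkU_val, nr_mul, nr_qinv hnw, hwn,
          mul_inv_cancel₀ hnh]
    rcases hwc with hwc | hwc
    · have e : W * n = n * W := Units.ext (by rw [Units.val_mul, Units.val_mul]; exact hwc)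
      have e2 : H * n * H⁻¹ = (H * W⁻¹) * n * (H * W⁻¹)⁻¹ := by
        have : W⁻¹ * n * W = n := by
          rw [mul_assoc, inv_mul_eq_iff_eq_mul, e]
        calc H * n * H⁻¹ = H * (W⁻¹ * n * W) * H⁻¹ := by rw [this]
          _ = _ := by group
      rw [e2]
      exact hnorm n hn _ hg
    · have e : W * n = n⁻¹ * W := Units.ext (by
        rw [Units.val_mul, Units.val_mul, inv_val (hN n hn).2]; exact hwc)
      have e2 : H * n * H⁻¹ = (H * W⁻¹) * n⁻¹ * (H * W⁻¹)⁻¹ := by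
        have : n⁻¹ = W * n * W⁻¹ := by
          rw [e]; group
        rw [this]
        group
      rw [e2]
      exact hnorm _ (hinv n hn) _ hg

lemma trace_mem {hα : α ∈ K} {hβ : β ∈ K} (han : Aniso α β K)
    (h1 : ∀ (a : Q α β) (ν : Ω), inD K a → ν ∈ K → S1 a ν K)
    {N : Set (Q α β)ˣ} (hN : ∀ n ∈ N, n ∈ G1 K hα hβ)
    (hnorm : ∀ n ∈ N, ∀ g ∈ G1 K hα hβ, g * n * g⁻¹ ∈ N) (hinv : ∀ n ∈ N, n⁻¹ ∈ N)
    {n y : (Q α β)ˣ} (hn : n ∈ N) (hy : y ∈ G1 K hα hβ) (hre : (n : Q α β).re = (y : Q α β).re) :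
    y ∈ N := by
  obtain ⟨hnD, hn1⟩ := mem_G1.1 (hN n hn)
  obtain ⟨hyD, hy1⟩ := mem_G1.1 hy
  by_cases hni : (n : Q α β).im = 0
  · have e1 := eq_coe_of_im hni
    have e2 : (n : Q α β).re ^ 2 = 1 := by
      rw [e1, nr_coe] at hn1
      exact hn1
    have e3 : (y : Q α β) - (((n : Q α β).re : Ω) : Q α β) = 0 := by
      apply han _ (inD_sub hyD (inD_coe hnD.1))
      rw [nr_sub_coe, hy1, ← hre]
      linear_combination -e2
    have e4 : y = n := by
      apply Units.ext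
      rw [e1]
      exact sub_eq_zero.1 e3
    rw [e4]
    exact hn
  · obtain ⟨h, hh, hh0, hc⟩ := skolem hα hβ han hnD hyD hre (hn1.trans hy1.symm) hni
    have := conj_mem (hα := hα) (hβ := hβ) han h1 hN hnorm hinv hn hh hh0
    have e : mkU h (nr_ne han hh hh0) * n * (mkU h (nr_ne han hh hh0))⁻¹ = y := by
      rw [mul_inv_eq_iff_eq_mul]
      apply Units.ext
      rw [Units.val_mul, Units.val_mul]
      exact hc
    rw [e] at this
    exact this

lemma two_inj {x y : Ω} (h : 2 * x = 2 * y) : x = y :=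
  mul_left_cancel₀ (two_ne_zero (α := Ω)) h

lemma w_props {b w : Q α β} (hb : b.im ≠ 0) (hw : w * b = star b * w) :
    w.re = 0 ∧ α * w.imI * b.imI + β * w.imJ * b.imJ - α * β * w.imK * b.imK = 0 := by
  have e0 := congrArg QuaternionAlgebra.re hw
  have e1 := congrArg QuaternionAlgebra.imI hw
  have e2 := congrArg QuaternionAlgebra.imJ hw
  have e3 := congrArg QuaternionAlgebra.imK hw
  simp only [re_mul, imI_mul, imJ_mul, imK_mul, re_star, imI_star, imJ_star, imK_star] at e0 e1 e2 e3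
  refine ⟨?_, two_inj (by linear_combination e0)⟩
  by_contra hw0
  apply hb
  have f1 : b.imI = 0 := by
    have : w.re * b.imI = 0 := two_inj (by linear_combination e1)
    exact (mul_eq_zero.1 this).resolve_left hw0
  have f2 : b.imJ = 0 := by
    have : w.re * b.imJ = 0 := two_inj (by linear_combination e2)
    exact (mul_eq_zero.1 this).resolve_left hw0
  have f3 : b.imK = 0 := by
    have : w.re * b.imK = 0 := two_inj (by linear_combination e3)
    exact (mul_eq_zero.1 this).resolve_left hw0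
  ext
  · simp
  · simpa using f1
  · simpa using f2
  · simpa using f3

/-- the conjugates of `a` and of its inverse under `G1` -/
def Cs (K : Subfield Ω) (hα : α ∈ K) (hβ : β ∈ K) (a : (Q α β)ˣ) : Set (Q α β)ˣ :=
  {c | ∃ g ∈ G1 K hα hβ, c = g * a * g⁻¹ ∨ c = g * a⁻¹ * g⁻¹}

lemma self_Cs {hα : α ∈ K} {hβ : β ∈ K} (a : (Q α β)ˣ) : a ∈ Cs K hα hβ a :=
  ⟨1, (G1 K hα hβ).one_mem, Or.inl (by simp)⟩

lemma Cs_G1 {hα : α ∈ K} {hβ : β ∈ K} {a : (Q α β)ˣ} (ha : a ∈ G1 K hα hβ) :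
    ∀ n ∈ Cs K hα hβ a, n ∈ G1 K hα hβ := by
  rintro n ⟨g, hg, rfl | rfl⟩
  · exact (G1 K hα hβ).mul_mem ((G1 K hα hβ).mul_mem hg ha) ((G1 K hα hβ).inv_mem hg)
  · exact (G1 K hα hβ).mul_mem ((G1 K hα hβ).mul_mem hg ((G1 K hα hβ).inv_mem ha))
      ((G1 K hα hβ).inv_mem hg)

lemma Cs_norm {hα : α ∈ K} {hβ : β ∈ K} {a : (Q α β)ˣ} :
    ∀ n ∈ Cs K hα hβ a, ∀ g ∈ G1 K hα hβ, g * n * g⁻¹ ∈ Cs K hα hβ a := by
  rintro n ⟨g, hg, rfl | rfl⟩ h hh
  · exact ⟨h * g, (G1 K hα hβ).mul_mem hh hg, Or.inl (by group)⟩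
  · exact ⟨h * g, (G1 K hα hβ).mul_mem hh hg, Or.inr (by group)⟩

lemma Cs_inv {hα : α ∈ K} {hβ : β ∈ K} {a : (Q α β)ˣ} :
    ∀ n ∈ Cs K hα hβ a, n⁻¹ ∈ Cs K hα hβ a := by
  rintro n ⟨g, hg, rfl | rfl⟩
  · exact ⟨g, hg, Or.inr (by group)⟩
  · exact ⟨g, hg, Or.inl (by group)⟩

lemma Cs_two {hα : α ∈ K} {hβ : β ∈ K} {a a' y : (Q α β)ˣ} (ha' : a' ∈ Cs K hα hβ a)
    (hy : y ∈ Cs K hα hβ (a * a')) : ∃ c ∈ Cs K hα hβ a, ∃ d ∈ Cs K hα hβ a, y = c * d := by
  obtain ⟨g, hg, rfl | rfl⟩ := hy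
  · exact ⟨g * a * g⁻¹, ⟨g, hg, Or.inl rfl⟩, g * a' * g⁻¹, Cs_norm a' ha' g hg, by group⟩
  · exact ⟨g * a'⁻¹ * g⁻¹, Cs_norm _ (Cs_inv a' ha') g hg, g * a⁻¹ * g⁻¹, ⟨g, hg, Or.inr rfl⟩,
      by group⟩

theorem four_conj {hα : α ∈ K} {hβ : β ∈ K} (hI : iu ∈ K) (han : Aniso α β K)
    (h1 : ∀ (a : Q α β) (ν : Ω), inD K a → ν ∈ K → S1 a ν K)
    (h2 : ∀ a b : Q α β, inD K a → inD K b → S2 a b K)
    {a : (Q α β)ˣ} (ha : a ∈ G1 K hα hβ) (hai : (a : Q α β).im ≠ 0) {b : (Q α β)ˣ}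
    (hb : b ∈ G1 K hα hβ) :
    ∃ c : Fin 4 → (Q α β)ˣ, (∀ i, c i ∈ Cs K hα hβ a) ∧
      (b = c 0 * c 1 * c 2 * c 3 ∨ -b = c 0 * c 1 * c 2 * c 3) := by
  obtain ⟨haD, ha1⟩ := mem_G1.1 ha
  have h2K : (2 : Ω) ∈ K := by
    rw [show (2 : Ω) = 1 + 1 by norm_num]
    exact K.add_mem K.one_mem K.one_mem
  -- the main case
  have main : ∀ b ∈ G1 K hα hβ, (b : Q α β).im ≠ 0 →
      (¬ ∃ x ∈ K, x ^ 2 = 2 * (b : Q α β).re - 2) →
      ∃ c : Fin 4 → (Q α β)ˣ, (∀ i, c i ∈ Cs K hα hβ a) ∧ b = c 0 * c 1 * c 2 * c 3 := by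
    intro b hb hbi hns
    obtain ⟨hbD, hb1⟩ := mem_G1.1 hb
    obtain ⟨g, w, hg, hg0, hw, hwb, hwn⟩ := (h2 a b haD hbD ha1 hb1 hai hbi).resolve_left hns
    obtain ⟨hw0, hwo⟩ := w_props hbi hwb
    have hτ : 1 + (b : Q α β).re ≠ 0 := by
      intro h0
      apply hbi
      have e3 : (b : Q α β) - ((-1 : Ω) : Q α β) = 0 := by
        apply han _ (inD_sub hbD (inD_coe (K.neg_mem K.one_mem)))
        rw [nr_sub_coe, hb1]
        linear_combination 2 * h0
      rw [sub_eq_zero.1 e3]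
      exact im_coe' _
    have hτ2 : 2 + 2 * (b : Q α β).re ≠ 0 := by
      intro h0
      apply hτ
      exact two_inj (by linear_combination h0)
    -- `y ∈ N`
    set a' : (Q α β)ˣ := mkU g (nr_ne han hg hg0) * a⁻¹ * (mkU g (nr_ne han hg hg0))⁻¹ with ha'
    have ha'C : a' ∈ Cs K hα hβ a :=
      conj_mem han h1 (Cs_G1 ha) Cs_norm Cs_inv (Cs_inv a (self_Cs a)) hg hg0
    have hyG : a * a' ∈ G1 K hα hβ := (G1 K hα hβ).mul_mem ha (Cs_G1 ha a' ha'C)
    have hyre : ((a * (mkU g (nr_ne han hg hg0) * a⁻¹ * (mkU g (nr_ne han hg hg0))⁻¹) :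
        (Q α β)ˣ) : Q α β).re = TT (a : Q α β) g / 2 := by
      rw [TT, Units.val_mul, Units.val_mul, Units.val_mul, inv_val ha1, mkU_inv, mkU_val,
        ← mul_assoc, ← mul_assoc]
      exact (mul_div_cancel_left₀ _ (two_ne_zero (α := Ω))).symm
    set T := TT (a : Q α β) g with hT
    have hT2 : T / 2 * 2 = T := div_mul_cancel₀ T (two_ne_zero (α := Ω))
    have hTK : T ∈ K := by
      have := hyG.1.1
      rw [hyre] at this
      have h4 := K.mul_mem h2K this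
      rwa [show 2 * (T / 2) = T by linear_combination hT2] at h4
    set c : Ω := T / (2 + 2 * (b : Q α β).re) with hc
    have hcK : c ∈ K := K.div_mem hTK (K.add_mem h2K (K.mul_mem h2K hbD.1))
    have hcT : c * (2 + 2 * (b : Q α β).re) = T := div_mul_cancel₀ _ hτ2
    set y1 : Q α β := c • (1 + (b : Q α β)) + w with hy1
    have hy1D : inD K y1 := inD_add (inD_smul hcK (inD_add inD_one hbD)) hw
    have hy1re : y1.re = T / 2 := by
      simp only [hy1, re_add, re_smul, smul_eq_mul, re_one, hw0]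
      exact two_inj (by linear_combination hcT - hT2)
    have hy1n : nr y1 = 1 := by
      have e1 : nr y1 = c ^ 2 * (2 + 2 * (b : Q α β).re) + nr w := by
        simp only [nr] at hb1
        simp only [nr, hy1, re_add, re_smul, smul_eq_mul, re_one, imI_add, imI_smul, imI_one,
          imJ_add, imJ_smul, imJ_one, imK_add, imK_smul, imK_one, hw0]
        linear_combination c ^ 2 * hb1 - 2 * c * hwo
      rw [e1, hwn, ← hcT]
      field_simp
      ring
    have hy1ne : nr y1 ≠ 0 := by rw [hy1n]; exact one_ne_zero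
    have hY1 : mkU y1 hy1ne ∈ G1 K hα hβ := mem_G1.2 ⟨hy1D, hy1n⟩
    have hY1N : mkU y1 hy1ne ∈ Cs K hα hβ (a * a') :=
      trace_mem han h1 (Cs_G1 hyG) Cs_norm Cs_inv (self_Cs (a * a')) hY1 (by
        rw [hyre, mkU_val, hy1re])
    have hY2 : (mkU y1 hy1ne)⁻¹ * b ∈ G1 K hα hβ :=
      (G1 K hα hβ).mul_mem ((G1 K hα hβ).inv_mem hY1) hb
    have hY2N : (mkU y1 hy1ne)⁻¹ * b ∈ Cs K hα hβ (a * a') :=
      trace_mem han h1 (Cs_G1 hyG) Cs_norm Cs_inv (self_Cs (a * a')) hY2 (by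
        rw [hyre, Units.val_mul, mkU_inv, qinv_of_one hy1n]
        simp only [nr] at hb1
        simp only [hy1, re_mul, re_star, imI_star, imJ_star, imK_star, re_add, re_smul,
          smul_eq_mul, re_one, imI_add, imI_smul, imI_one,
          imJ_add, imJ_smul, imJ_one, imK_add, imK_smul, imK_one, hw0]
        exact two_inj (by linear_combination hT2 - hcT - 2 * c * hb1 + 2 * hwo))
    obtain ⟨c1, hc1, c2, hc2, e12⟩ := Cs_two ha'C hY1N
    obtain ⟨c3, hc3, c4, hc4, e34⟩ := Cs_two ha'C hY2N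
    refine ⟨![c1, c2, c3, c4], ?_, ?_⟩
    · intro i
      fin_cases i
      · exact hc1
      · exact hc2
      · exact hc3
      · exact hc4
    · have e5 : b = mkU y1 hy1ne * ((mkU y1 hy1ne)⁻¹ * b) := by group
      rw [e34, e12] at e5
      change b = c1 * c2 * c3 * c4
      rw [e5]
      group
  obtain ⟨hbD, hb1⟩ := mem_G1.1 hb
  have hone : ∃ c : Fin 4 → (Q α β)ˣ, (∀ i, c i ∈ Cs K hα hβ a) ∧ 1 = c 0 * c 1 * c 2 * c 3 := by
    refine ⟨![a, a⁻¹, a, a⁻¹], ?_, ?_⟩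
    · intro i
      fin_cases i
      · exact self_Cs a
      · exact Cs_inv a (self_Cs a)
      · exact self_Cs a
      · exact Cs_inv a (self_Cs a)
    · change 1 = a * a⁻¹ * a * a⁻¹
      group
  by_cases hbi : (b : Q α β).im = 0
  · have e1 := eq_coe_of_im hbi
    have e2 : ((b : Q α β).re - 1) * ((b : Q α β).re + 1) = 0 := by
      rw [e1, nr_coe] at hb1
      linear_combination hb1
    obtain ⟨c, hc, hc1⟩ := hone
    rcases mul_eq_zero.1 e2 with h | h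
    · have : b = 1 := by
        apply Units.ext
        rw [e1, sub_eq_zero.1 h]
        rfl
      exact ⟨c, hc, Or.inl (this.trans hc1)⟩
    · have : -b = 1 := by
        apply Units.ext
        rw [Units.val_neg, e1, eq_neg_of_add_eq_zero_left h]
        ext <;> simp
      exact ⟨c, hc, Or.inr (this.trans hc1)⟩
  · by_cases hns : ∃ x ∈ K, x ^ 2 = 2 * (b : Q α β).re - 2
    · obtain ⟨c, hc, hc1⟩ := main (-b) (by
        refine mem_G1.2 ⟨?_, ?_⟩
        · rw [Units.val_neg]; exact inD_neg hbD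
        · rw [Units.val_neg, nr_neg]; exact hb1) (by
        rw [Units.val_neg, QuaternionAlgebra.im_neg]
        exact neg_ne_zero.2 hbi) (by
        rintro ⟨z, hz, hz2⟩
        obtain ⟨x, hx, hx2⟩ := hns
        rw [Units.val_neg, re_neg] at hz2
        refine disc_nonsq han hbD hbi hb1 (iu * x * z) (K.mul_mem (K.mul_mem hI hx) hz) ?_
        rw [mul_pow, mul_pow, hx2, hz2, iu_sq]
        ring)
      exact ⟨c, hc, Or.inr hc1⟩
    · obtain ⟨c, hc, hc1⟩ := main b hb hbi hns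
      exact ⟨c, hc, Or.inl hc1⟩

/-- torsion elements are scalar -/
lemma torsion_free (hα : α ∈ K) (hβ : β ∈ K)
    (hroot : ∀ (z : Ω) (n : ℕ), 0 < n → z ^ n = 1 → z ∈ K) (han : Aniso α β K)
    {x : Q α β} (hx : inD K x) (hx1 : nr x = 1) {n : ℕ} (hn : 0 < n) (hxn : x ^ n = 1) :
    x.im = 0 := by
  obtain ⟨s, hs⟩ := exists_sq (x.re ^ 2 - 1)
  set lam : Ω := x.re + s with hlam
  have hl0 : nr (x - (lam : Q α β)) = 0 := by
    rw [nr_sub_coe, hx1, hlam]
    linear_combination hs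
  have hcomm : Commute x ((lam : Ω) : Q α β) := (coe_comm lam x).symm
  have h1 := hcomm.mul_geom_sum₂ n
  have h2 := congrArg nr h1
  rw [nr_mul, hl0, zero_mul, hxn] at h2
  have h3 : ((lam : Ω) : Q α β) ^ n = ((lam ^ n : Ω) : Q α β) := by
    exact (QuaternionAlgebra.coe_pow _ _).symm
  rw [h3] at h2
  have h4 : nr ((1 : Q α β) - ((lam ^ n : Ω) : Q α β)) = (1 - lam ^ n) ^ 2 := by
    rw [nr_sub_coe, nr_one]
    simp
    ring
  rw [h4] at h2
  have h5 : lam ^ n = 1 := by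
    have := (pow_eq_zero_iff two_ne_zero).1 h2.symm
    exact (sub_eq_zero.1 this).symm
  have hlK : lam ∈ K := hroot lam n hn h5
  have h6 := han _ (inD_sub hx (inD_coe hlK)) hl0
  rw [sub_eq_zero.1 h6]
  exact im_coe' _

/-- the matrix of `e ↦ x * e * star x` on the pure quaternions -/
def C3 (x : Q α β) : Matrix (Fin 3) (Fin 3) Ω :=
  !![(x * ⟨0, 1, 0, 0⟩ * star x).imI, (x * ⟨0, 0, 1, 0⟩ * star x).imI,
      (x * ⟨0, 0, 0, 1⟩ * star x).imI;
     (x * ⟨0, 1, 0, 0⟩ * star x).imJ, (x * ⟨0, 0, 1, 0⟩ * star x).imJ,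
      (x * ⟨0, 0, 0, 1⟩ * star x).imJ;
     (x * ⟨0, 1, 0, 0⟩ * star x).imK, (x * ⟨0, 0, 1, 0⟩ * star x).imK,
      (x * ⟨0, 0, 0, 1⟩ * star x).imK]

/-- the adjoint representation -/
def ad : Q α β →* Matrix (Fin 3) (Fin 3) Ω where
  toFun := C3
  map_one' := by
    ext i j
    fin_cases i <;> fin_cases j <;> simp [C3]
  map_mul' x y := by
    ext i j
    rw [Matrix.mul_apply, Fin.sum_univ_three]
    fin_cases i <;> fin_cases j <;>
      simp [C3] <;> ring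

end Pool.Agent.Y58.TFS
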